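import Mathlib

/-! Fibonacci numbers modulo primes: period, rank of apparition, divisors of `F_p`. -/

set_option autoImplicit false

namespace Pool.FS83

open Finset

/-- Roots of `X^2 - X - 1` in an algebraic closure of `ZMod r`. -/
theorem exists_root (r : ℕ) [Fact r.Prime] :
    ∃ φ : AlgebraicClosure (ZMod r), φ ^ 2 = φ + 1 := by
  obtain ⟨φ, hφ⟩ := IsAlgClosed.exists_root
    (Polynomial.X ^ 2 - Polynomial.X - 1 : Polynomial (AlgebraicClosure (ZMod r))) (by
      have : (Polynomial.X ^ 2 - Polynomial.X - 1 : Polynomial (AlgebraicClosure (ZMod r))).degree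
          = 2 := by compute_degree!
      rw [this]; norm_num)
  refine ⟨φ, ?_⟩
  rw [Polynomial.IsRoot.def] at hφ
  simp only [Polynomial.eval_sub, Polynomial.eval_pow, Polynomial.eval_X,
    Polynomial.eval_one] at hφ
  linear_combination hφ

/-- Binet. -/
theorem binet {K : Type} [CommRing K] (φ : K) (h : φ ^ 2 = φ + 1) (n : ℕ) :
    (Nat.fib n : K) * (φ - (1 - φ)) = φ ^ n - (1 - φ) ^ n := by
  induction n using Nat.strong_induction_on with
  | _ n ih =>
    match n, ih with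
    | 0, _ => simp
    | 1, _ => simp
    | n + 2, ih =>
      have h1 := ih n (by omega)
      have h2 := ih (n + 1) (by omega)
      have h3 : (1 - φ) ^ 2 = (1 - φ) + 1 := by linear_combination h
      rw [Nat.fib_add_two]
      push_cast
      rw [add_mul, h1, h2, pow_add φ n 2, pow_add (1 - φ) n 2, h, h3]
      ring

/-- The two cases for the period, together with the rank information. -/
theorem period_aux' (r : ℕ) (hr : r.Prime) (h5 : r ≠ 5) {K : Type} [Field K] [CharP K r]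
    (φ : K) (hφ : φ ^ 2 = φ + 1) :
    ((∀ x, (Nat.fib (x + (r - 1)) : K) = Nat.fib x) ∧ (Nat.fib (r - 1) : K) = 0) ∨
    ((∀ x, (Nat.fib (x + 2 * (r + 1)) : K) = Nat.fib x) ∧ (Nat.fib (r + 1) : K) = 0) := by
  have hfact := Fact.mk hr
  obtain ⟨ψ, hψ⟩ : ∃ ψ : K, ψ = 1 - φ := ⟨_, rfl⟩
  have hd : φ - ψ ≠ 0 := by
    intro h0
    have h1 : (φ - ψ) ^ 2 = 5 := by rw [hψ]; linear_combination 4 * hφ
    rw [h0] at h1
    have h2 : ((5 : ℕ) : K) = 0 := by push_cast; rw [← h1]; ring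
    rw [CharP.cast_eq_zero_iff K r 5] at h2
    exact h5 ((Nat.prime_dvd_prime_iff_eq hr (by norm_num)).1 h2)
  have hprod : φ * ψ = -1 := by rw [hψ]; linear_combination -hφ
  have hφ0 : φ ≠ 0 := by rintro h; rw [h] at hprod; simp at hprod
  have hψ0 : ψ ≠ 0 := by intro h; rw [h] at hprod; simp at hprod
  -- Frobenius
  have hF : (φ ^ r) ^ 2 = φ ^ r + 1 := by
    have h1 : (φ ^ 2) ^ r = (φ + 1) ^ r := by rw [hφ]
    rw [add_pow_char, one_pow] at h1
    rw [← h1]; ring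
  have hψr : ψ ^ r = 1 - φ ^ r := by rw [hψ, sub_pow_char, one_pow]
  have hcases : φ ^ r = φ ∨ φ ^ r = ψ := by
    have : (φ ^ r - φ) * (φ ^ r - ψ) = 0 := by
      rw [hψ]; linear_combination hF - hφ
    rcases mul_eq_zero.1 this with h | h
    · exact Or.inl (sub_eq_zero.1 h)
    · exact Or.inr (sub_eq_zero.1 h)
  have key : ∀ E : ℕ, φ ^ E = 1 → ψ ^ E = 1 → ∀ x, (Nat.fib (x + E) : K) = Nat.fib x := by
    intro E h1 h2 x
    apply mul_right_cancel₀ hd
    rw [hψ, binet φ hφ, binet φ hφ, pow_add, pow_add, h1, ← hψ, h2, mul_one, mul_one]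
  have key2 : ∀ E : ℕ, φ ^ E = ψ ^ E → (Nat.fib E : K) = 0 := by
    intro E h
    apply mul_right_cancel₀ hd
    rw [hψ, binet φ hφ, ← hψ, h, zero_mul, sub_self]
  rcases hcases with h | h
  · left
    have e : r = (r - 1) + 1 := (Nat.succ_pred_prime hr).symm
    have h1 : φ ^ (r - 1) = 1 := by
      apply mul_right_cancel₀ hφ0
      rw [← pow_succ, ← e, h, one_mul]
    have h2' : ψ ^ r = ψ := by rw [hψr, h, hψ]
    have h2 : ψ ^ (r - 1) = 1 := by
      apply mul_right_cancel₀ hψ0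
      rw [← pow_succ, ← e, h2', one_mul]
    exact ⟨key _ h1 h2, key2 _ (by rw [h1, h2])⟩
  · right
    have h1 : φ ^ (r + 1) = -1 := by rw [pow_succ, h, mul_comm, hprod]
    have h2' : ψ ^ r = φ := by rw [hψr, h, hψ]; ring
    have h2 : ψ ^ (r + 1) = -1 := by rw [pow_succ, h2', hprod]
    refine ⟨key _ ?_ ?_, key2 _ (by rw [h1, h2])⟩
    · rw [mul_comm, pow_mul, h1]; ring
    · rw [mul_comm, pow_mul, h2]; ring

theorem period_aux (r : ℕ) (hr : r.Prime) (h5 : r ≠ 5) :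
    ((∀ x, (Nat.fib (x + (r - 1)) : ZMod r) = Nat.fib x) ∧ r ∣ Nat.fib (r - 1)) ∨
    ((∀ x, (Nat.fib (x + 2 * (r + 1)) : ZMod r) = Nat.fib x) ∧ r ∣ Nat.fib (r + 1)) := by
  have hfact := Fact.mk hr
  obtain ⟨φ, hφ⟩ := exists_root r
  have hinj : Function.Injective (algebraMap (ZMod r) (AlgebraicClosure (ZMod r))) :=
    (algebraMap (ZMod r) _).injective
  have hch : CharP (AlgebraicClosure (ZMod r)) r := charP_of_injective_algebraMap hinj r
  have tr : ∀ n m : ℕ, (n : AlgebraicClosure (ZMod r)) = m → (n : ZMod r) = m := by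
    intro n m h
    apply hinj
    rw [map_natCast, map_natCast, h]
  rcases period_aux' r hr h5 φ hφ with ⟨h1, h2⟩ | ⟨h1, h2⟩
  · left
    exact ⟨fun x => tr _ _ (h1 x), (ZMod.natCast_eq_zero_iff _ _).1 (by
      have := tr _ 0 (by rw [h2, Nat.cast_zero]); rwa [Nat.cast_zero] at this)⟩
  · right
    exact ⟨fun x => tr _ _ (h1 x), (ZMod.natCast_eq_zero_iff _ _).1 (by
      have := tr _ 0 (by rw [h2, Nat.cast_zero]); rwa [Nat.cast_zero] at this)⟩

/-- A prime divisor of `F_p`, `p ≥ 7` prime, is `± 1` modulo `p`. -/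
theorem prime_dvd_fib {p q : ℕ} (hp : p.Prime) (hp7 : 7 ≤ p) (hq : q.Prime)
    (h : q ∣ Nat.fib p) : p ∣ q - 1 ∨ p ∣ q + 1 := by
  have hcop : ∀ n, Nat.Coprime p n → ¬ q ∣ Nat.fib n := by
    intro n hn hqn
    have h1 : q ∣ Nat.gcd (Nat.fib p) (Nat.fib n) := Nat.dvd_gcd h hqn
    rw [← Nat.fib_gcd, hn, Nat.fib_one] at h1
    exact hq.one_lt.ne' (Nat.dvd_one.1 h1)
  have h5 : q ≠ 5 := by
    intro h5
    refine hcop 5 ((Nat.coprime_primes hp (by norm_num)).2 (by omega)) ?_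
    rw [h5]; decide
  have hdvd : ∀ n, q ∣ Nat.fib n → p ∣ n := by
    intro n hn
    by_contra hpn
    exact hcop n ((Nat.Prime.coprime_iff_not_dvd hp).2 hpn) hn
  rcases period_aux q hq h5 with ⟨_, h2⟩ | ⟨_, h2⟩
  · exact Or.inl (hdvd _ h2)
  · exact Or.inr (hdvd _ h2)

theorem not_dvd_fib_of_lt {p r : ℕ} (hp : p.Prime) (hp7 : 7 ≤ p) (hr : r.Prime)
    (hrp : r + 1 < p) : ¬ r ∣ Nat.fib p := by
  intro h
  rcases prime_dvd_fib hp hp7 hr h with h | h
  · have := Nat.le_of_dvd (by have := hr.two_le; omega) h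
    omega
  · have := Nat.le_of_dvd (by omega) h
    omega

/-- Every divisor of `F_p` is `± 1` modulo `p`. -/
theorem dvd_fib_mod {p : ℕ} (hp : p.Prime) (hp7 : 7 ≤ p) (s : ℕ) (h : s ∣ Nat.fib p) :
    (s : ZMod p) = 1 ∨ (s : ZMod p) = -1 := by
  induction s using Nat.recOnMul with
  | zero =>
    rw [zero_dvd_iff, Nat.fib_eq_zero] at h
    omega
  | one => simp
  | prime q hq =>
    rcases prime_dvd_fib hp hp7 hq h with h | h
    · left
      have h1 : ((q - 1 : ℕ) : ZMod p) = 0 := (ZMod.natCast_eq_zero_iff _ _).2 h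
      rw [Nat.cast_sub hq.one_le, Nat.cast_one, sub_eq_zero] at h1
      exact h1
    · right
      have h1 : ((q + 1 : ℕ) : ZMod p) = 0 := (ZMod.natCast_eq_zero_iff _ _).2 h
      rw [Nat.cast_add, Nat.cast_one] at h1
      exact eq_neg_of_add_eq_zero_left h1
  | mul a b ha hb =>
    have h1 := ha (dvd_trans (dvd_mul_right a b) h)
    have h2 := hb (dvd_trans (dvd_mul_left b a) h)
    push_cast
    rcases h1 with h1 | h1 <;> rcases h2 with h2 | h2 <;> rw [h1, h2] <;> simp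

end Pool.FS83
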