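import Mathlib

/-! Fibonacci numbers of prime index at least 7 are not perfect squares. -/

set_option autoImplicit false

namespace Pool.FS83

theorem cassini (n : ℕ) :
    (Nat.fib n : ℤ) * Nat.fib (n + 2) - (Nat.fib (n + 1) : ℤ) ^ 2 = (-1) ^ (n + 1) := by
  induction n with
  | zero => simp
  | succ n ih =>
    have e1 : Nat.fib (n + 1 + 2) = Nat.fib (n + 1) + Nat.fib (n + 2) := Nat.fib_add_two
    have e2 : Nat.fib (n + 2) = Nat.fib n + Nat.fib (n + 1) := Nat.fib_add_two
    rw [e1, show n + 1 + 1 = n + 2 from rfl, pow_succ (-1 : ℤ) (n + 1), ← ih, e2]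
    push_cast
    ring

/-- Lucas number `L_k` for `k = j + 1`. -/
def luc (j : ℕ) : ℕ := Nat.fib j + Nat.fib (j + 2)

theorem fib_mod_four (n : ℕ) : Nat.fib (n + 6) % 4 = Nat.fib n % 4 := by
  have h : Nat.fib (n + 6) = 5 * Nat.fib n + 8 * Nat.fib (n + 1) := by
    simp only [Nat.fib_add_two]
    ring
  rw [h]; omega

theorem luc_mod_four (j : ℕ) (h : j % 6 = 1 ∨ j % 6 = 3) : luc j % 4 = 3 := by
  have hper : ∀ t a, Nat.fib (a + 6 * t) % 4 = Nat.fib a % 4 := by
    intro t
    induction t with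
    | zero => intro a; rfl
    | succ t ih =>
      intro a
      rw [show a + 6 * (t + 1) = (a + 6 * t) + 6 by ring, fib_mod_four, ih]
  obtain ⟨t, ht⟩ : ∃ t, j = j % 6 + 6 * t := ⟨j / 6, by omega⟩
  unfold luc
  rcases h with h | h
  · rw [h] at ht
    have h1 := hper t 1
    have h2 := hper t 3
    rw [ht, show 1 + 6 * t + 2 = 3 + 6 * t by ring]
    have e1 : Nat.fib 1 = 1 := rfl
    have e2 : Nat.fib 3 = 2 := rfl
    omega
  · rw [h] at ht
    have h1 := hper t 3
    have h2 := hper t 5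
    rw [ht, show 3 + 6 * t + 2 = 5 + 6 * t by ring]
    have e1 : Nat.fib 3 = 2 := rfl
    have e2 : Nat.fib 5 = 5 := rfl
    omega

/-- with `k = j + 1` even: `F_{2k} = 0`, `F_{2k+1} = -1` modulo `L_k`. -/
theorem fib_two_k (j : ℕ) (hj : Odd j) :
    ((Nat.fib (2 * (j + 1)) : ℤ) = luc j * Nat.fib (j + 1)) ∧
    ((Nat.fib (2 * (j + 1) + 1) : ℤ) + 1 = luc j * Nat.fib (j + 2)) := by
  have e2 : Nat.fib (j + 2) = Nat.fib j + Nat.fib (j + 1) := Nat.fib_add_two
  have hc := cassini j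
  have hev : (-1 : ℤ) ^ (j + 1) = 1 := Even.neg_one_pow (hj.add_odd odd_one)
  rw [hev] at hc
  constructor
  · rw [show 2 * (j + 1) = j + (j + 1) + 1 by ring, Nat.fib_add, luc,
      show j + 1 + 1 = j + 2 from rfl, e2]
    push_cast; ring
  · rw [Nat.fib_two_mul_add_one, luc, show j + 1 + 1 = j + 2 from rfl]
    push_cast
    linear_combination -hc

theorem fib_add_two_k (j : ℕ) (hj : Odd j) (n : ℕ) :
    ((Nat.fib (n + 1 + 2 * (j + 1)) : ℕ) : ZMod (luc j)) = -(Nat.fib (n + 1) : ZMod (luc j)) := by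
  obtain ⟨h1, h2⟩ := fib_two_k j hj
  have h1' : ((Nat.fib (2 * (j + 1)) : ℕ) : ZMod (luc j)) = 0 := by
    have := congrArg (Int.cast : ℤ → ZMod (luc j)) h1
    push_cast at this
    rw [this, ZMod.natCast_self, zero_mul]
  have h2' : ((Nat.fib (2 * (j + 1) + 1) : ℕ) : ZMod (luc j)) = -1 := by
    have := congrArg (Int.cast : ℤ → ZMod (luc j)) h2
    push_cast at this
    rw [ZMod.natCast_self, zero_mul] at this
    exact eq_neg_of_add_eq_zero_left this
  rw [show n + 1 + 2 * (j + 1) = n + 2 * (j + 1) + 1 by ring, Nat.fib_add]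
  push_cast
  rw [h1', h2']; ring

theorem fib_two_k_sub_one (j : ℕ) (hj : Odd j) :
    ((Nat.fib (2 * (j + 1) - 1) : ℕ) : ZMod (luc j)) = -1 := by
  obtain ⟨h1, h2⟩ := fib_two_k j hj
  have h3 : Nat.fib (2 * (j + 1) + 1) = Nat.fib (2 * (j + 1) - 1) + Nat.fib (2 * (j + 1)) := by
    rw [show 2 * (j + 1) + 1 = (2 * (j + 1) - 1) + 2 by omega,
      Nat.fib_add_two, show 2 * (j + 1) - 1 + 1 = 2 * (j + 1) by omega]
  have e : ((Nat.fib (2 * (j + 1) - 1) : ℕ) : ℤ) + 1 = luc j * (Nat.fib (j + 2) -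
      Nat.fib (j + 1)) := by
    have : ((Nat.fib (2 * (j + 1) + 1) : ℕ) : ℤ) = (Nat.fib (2 * (j + 1) - 1) : ℕ) +
      (Nat.fib (2 * (j + 1)) : ℕ) := by exact_mod_cast h3
    linear_combination h2 - this - h1
  have := congrArg (Int.cast : ℤ → ZMod (luc j)) e
  push_cast at this
  rw [ZMod.natCast_self, zero_mul] at this
  exact eq_neg_of_add_eq_zero_left this

theorem exists_prime_three (n : ℕ) : n % 4 = 3 → ∃ p ∈ n.primeFactors, p % 4 = 3 := by
  induction n using Nat.recOnMul with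
  | zero => intro h; omega
  | one => intro h; omega
  | prime q hq =>
    intro h
    exact ⟨q, by rw [hq.primeFactors]; exact Finset.mem_singleton_self q, h⟩
  | mul a b ha hb =>
    intro h
    have hab : a * b ≠ 0 := by intro h0; rw [h0] at h; omega
    have ha0 : a ≠ 0 := left_ne_zero_of_mul hab
    have hb0 : b ≠ 0 := right_ne_zero_of_mul hab
    have hcase : a % 4 = 3 ∨ b % 4 = 3 := by
      have h1 := Nat.mul_mod a b 4
      have h2 : a % 4 < 4 := Nat.mod_lt _ (by norm_num)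
      have h3 : b % 4 < 4 := Nat.mod_lt _ (by norm_num)
      interval_cases h4 : a % 4 <;> interval_cases h5 : b % 4 <;> simp_all
    rcases hcase with h1 | h1
    · obtain ⟨p, hp, hp3⟩ := ha h1
      refine ⟨p, ?_, hp3⟩
      rw [Nat.primeFactors_mul ha0 hb0]
      exact Finset.mem_union_left _ hp
    · obtain ⟨p, hp, hp3⟩ := hb h1
      refine ⟨p, ?_, hp3⟩
      rw [Nat.primeFactors_mul ha0 hb0]
      exact Finset.mem_union_right _ hp

/-- write `n = 2 * 3^a * k` with `k` even, prime to 3, if `4 ∣ n`, `n > 0`. -/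
theorem decomp (n : ℕ) (h4 : 4 ∣ n) (hn : 0 < n) :
    ∃ a j : ℕ, n = 3 ^ a * (2 * (j + 1)) ∧ Odd j ∧ (j % 6 = 1 ∨ j % 6 = 3) := by
  obtain ⟨a, m, hm, rfl⟩ := Nat.exists_eq_pow_mul_and_not_dvd (n := n) hn.ne' 3 (by norm_num)
  have hc : Nat.Coprime 4 (3 ^ a) := by
    apply Nat.Coprime.pow_right; norm_num
  have h4m : 4 ∣ m := hc.dvd_of_dvd_mul_left h4
  obtain ⟨c, rfl⟩ := h4m
  have hc0 : 0 < c := by
    rcases Nat.eq_zero_or_pos c with h | h
    · subst h; simp at hn
    · exact h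
  refine ⟨a, 2 * c - 1, ?_, ?_, ?_⟩
  · congr 1; omega
  · exact ⟨c - 1, by omega⟩
  · omega

theorem fib_prime_ne_sq {p : ℕ} (hp : p.Prime) (hp7 : 7 ≤ p) (k : ℕ) : Nat.fib p ≠ k ^ 2 := by
  intro hk
  have hodd : p % 2 = 1 := by
    rcases hp.eq_two_or_odd with h | h
    · omega
    · exact h
  -- claim: `F_p = -1` modulo some `L` with `L % 4 = 3`
  have hmain : ∃ j, luc j % 4 = 3 ∧ ((Nat.fib p : ℕ) : ZMod (luc j)) = -1 := by
    have hcase : p % 4 = 1 ∨ p % 4 = 3 := by omega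
    rcases hcase with h1 | h3
    · obtain ⟨a, j, hn, hj, hj6⟩ := decomp (p - 1) (by omega) (by omega)
      refine ⟨j, luc_mod_four j hj6, ?_⟩
      have hper : ∀ t, ((Nat.fib (1 + (2 * t + 1) * (2 * (j + 1))) : ℕ) : ZMod (luc j)) = -1 := by
        intro t
        induction t with
        | zero =>
          have := fib_add_two_k j hj 0
          simp only [zero_add, Nat.fib_one, Nat.cast_one] at this
          simpa using this
        | succ t ih =>
          have e1 : 1 + (2 * (t + 1) + 1) * (2 * (j + 1)) =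
              ((2 * t + 1) * (2 * (j + 1)) + 2 * (j + 1)) + 1 + 2 * (j + 1) := by ring
          rw [e1, fib_add_two_k j hj]
          have e2 : (2 * t + 1) * (2 * (j + 1)) + 2 * (j + 1) + 1 =
              ((2 * t + 1) * (2 * (j + 1))) + 1 + 2 * (j + 1) := by ring
          rw [e2, fib_add_two_k j hj, neg_neg, add_comm, ih]
      have h3a : 3 ^ a % 2 = 1 := by
        rw [Nat.pow_mod]; simp
      obtain ⟨t, ht⟩ : ∃ t, 3 ^ a = 2 * t + 1 := ⟨3 ^ a / 2, by omega⟩
      have := hper t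
      rw [← ht, ← hn, show 1 + (p - 1) = p by omega] at this
      exact this
    · obtain ⟨a, j, hn, hj, hj6⟩ := decomp (p + 1) (by omega) (by omega)
      refine ⟨j, luc_mod_four j hj6, ?_⟩
      have hper : ∀ t, ((Nat.fib ((2 * t + 1) * (2 * (j + 1)) - 1) : ℕ) : ZMod (luc j)) = -1 := by
        intro t
        induction t with
        | zero =>
          have := fib_two_k_sub_one j hj
          simpa using this
        | succ t ih =>
          obtain ⟨w, hw⟩ : ∃ w, (2 * t + 1) * (2 * (j + 1)) = w + 2 := by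
            refine ⟨(2 * t + 1) * (2 * (j + 1)) - 2, ?_⟩
            have : 2 ≤ (2 * t + 1) * (2 * (j + 1)) := by nlinarith
            omega
          have e1 : (2 * (t + 1) + 1) * (2 * (j + 1)) - 1 =
              (w + 2 * (j + 1)) + 1 + 2 * (j + 1) := by
            have : (2 * (t + 1) + 1) * (2 * (j + 1)) = (2 * t + 1) * (2 * (j + 1)) +
              2 * (j + 1) + 2 * (j + 1) := by ring
            rw [this, hw]; omega
          rw [e1, fib_add_two_k j hj]
          have e2 : w + 2 * (j + 1) + 1 = w + 1 + 2 * (j + 1) := by ring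
          rw [e2, fib_add_two_k j hj, neg_neg]
          rw [hw] at ih
          exact ih
      have h3a : 3 ^ a % 2 = 1 := by
        rw [Nat.pow_mod]; simp
      obtain ⟨t, ht⟩ : ∃ t, 3 ^ a = 2 * t + 1 := ⟨3 ^ a / 2, by omega⟩
      have := hper t
      rw [← ht, ← hn, show p + 1 - 1 = p by omega] at this
      exact this
  obtain ⟨j, hj3, hj⟩ := hmain
  obtain ⟨q, hq, hq3⟩ := exists_prime_three _ hj3
  refine Nat.mod_four_ne_three_of_mem_primeFactors_of_isSquare_neg_one hq ?_ hq3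
  refine ⟨(k : ZMod (luc j)), ?_⟩
  rw [← hj, hk]
  push_cast
  ring

end Pool.FS83
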