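import Pool.Agent.FS83.Sums

/-! Correlation bound by Cauchy-Schwarz over residue classes modulo the period. -/

set_option autoImplicit false

namespace Pool.FS83

open Finset

theorem sum_range_mul_split (u : ℕ → ℤ) (E K : ℕ) :
    ∑ x ∈ range (E * K), u x = ∑ t ∈ range K, ∑ a ∈ range E, u (a + E * t) := by
  induction K with
  | zero => simp
  | succ K ih =>
    rw [mul_add, mul_one, sum_range_add, ih, sum_range_succ]
    congr 1
    exact sum_congr rfl fun a _ => by rw [add_comm]

/-- symmetric double sums over a square, by differences -/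
theorem sum_square_symm (F : ℕ → ℕ → ℤ) (hF : ∀ a b, F a b = F b a) (J : ℕ) :
    ∑ t ∈ range J, ∑ t' ∈ range J, F t t' = ∑ t ∈ range J, F t t +
      2 * ∑ i ∈ Ico 1 J, ∑ t ∈ range (J - i), F t (t + i) := by
  induction J with
  | zero => simp
  | succ J ih =>
    have h1 : ∑ t ∈ range (J + 1), ∑ t' ∈ range (J + 1), F t t' =
        ∑ t ∈ range J, ∑ t' ∈ range J, F t t' + 2 * ∑ t ∈ range J, F t J + F J J := by
      rw [sum_range_succ]
      simp only [sum_range_succ (fun t' => F _ t')]
      rw [sum_add_distrib]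
      have : ∑ x ∈ range J, F J x = ∑ t ∈ range J, F t J := sum_congr rfl fun x _ => hF _ _
      rw [this]; ring
    have h2 : ∑ i ∈ Ico 1 (J + 1), ∑ t ∈ range (J + 1 - i), F t (t + i) =
        ∑ i ∈ Ico 1 J, ∑ t ∈ range (J - i), F t (t + i) + ∑ t ∈ range J, F t J := by
      have e1 : ∀ i ∈ Ico 1 (J + 1), ∑ t ∈ range (J + 1 - i), F t (t + i) =
          ∑ t ∈ range (J - i), F t (t + i) + F (J - i) J := by
        intro i hi
        rw [mem_Ico] at hi
        rw [show J + 1 - i = (J - i) + 1 by omega, sum_range_succ,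
          show J - i + i = J by omega]
      rw [sum_congr rfl e1, sum_add_distrib]
      have e2 : ∑ i ∈ Ico 1 (J + 1), ∑ t ∈ range (J - i), F t (t + i) =
          ∑ i ∈ Ico 1 J, ∑ t ∈ range (J - i), F t (t + i) := by
        rcases Nat.eq_zero_or_pos J with hJ | hJ
        · subst hJ; simp
        · rw [sum_Ico_succ_top hJ]; simp
      have e3 : ∑ i ∈ Ico 1 (J + 1), F (J - i) J = ∑ t ∈ range J, F t J := by
        rw [sum_Ico_eq_sum_range, show J + 1 - 1 = J by omega,
          ← sum_range_reflect (fun t => F t J) J]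
        refine sum_congr rfl fun k hk => ?_
        rw [mem_range] at hk
        congr 1; omega
      rw [e2, e3]
    rw [h1, ih, h2, sum_range_succ]; ring

/-- the character value `χ_r (m x + e)` -/
noncomputable def ch (r : ℕ) [Fact r.Prime] (m : ℕ) (e : ℤ) (x : ℕ) : ℤ :=
  quadraticChar (ZMod r) ((m : ZMod r) * x + e)

theorem quadChar_abs_le (r : ℕ) [Fact r.Prime] (z : ZMod r) :
    |quadraticChar (ZMod r) z| ≤ 1 := by
  rcases eq_or_ne z 0 with h | h
  · rw [h, quadraticChar_zero]; simp
  · rcases quadraticChar_dichotomy h with h | h <;> rw [h] <;> simp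

theorem ch_abs_le (r : ℕ) [Fact r.Prime] (m : ℕ) (e : ℤ) (x : ℕ) : |ch r m e x| ≤ 1 :=
  quadChar_abs_le r _

/-- multiplicity factor -/
def kap (r i : ℕ) : ℕ := if r ∣ i then r else 1

section
variable (r s : ℕ) [Fact r.Prime] [Fact s.Prime] (m : ℕ) (e : ℤ)

/-- shifted correlation of the product of the two characters -/
theorem corr_bound (hr2 : r ≠ 2) (hs2 : s ≠ 2) (hrs : r ≠ s) (hrm : ¬ r ∣ m) (hsm : ¬ s ∣ m)
    (E i : ℕ) (hrE : ¬ r ∣ E) (hsE : ¬ s ∣ E) (N : ℕ) :
    |∑ x ∈ range N, (ch r m e x * ch s m e x) * (ch r m e (x + E * i) * ch s m e (x + E * i))| ≤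
      ((N / (r * s) : ℕ) : ℤ) * (kap r i * kap s i) + (r * s : ℕ) := by
  have hr : r.Prime := Fact.out
  have hs : s.Prime := Fact.out
  have hrne : NeZero r := ⟨hr.ne_zero⟩
  have hsne : NeZero s := ⟨hs.ne_zero⟩
  have hper : ∀ (q : ℕ) [Fact q.Prime] (k x : ℕ), ch q m e (x + q * k) = ch q m e x := by
    intro q _ k x
    unfold ch
    push_cast
    rw [ZMod.natCast_self]; ring_nf
  have h1 := periodic_sum_bound (fun x => (ch r m e x * ch s m e x) *
    (ch r m e (x + E * i) * ch s m e (x + E * i))) (r * s) (Nat.mul_pos hr.pos hs.pos) (by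
      intro x
      have a1 : ch r m e (x + r * s) = ch r m e x := hper r s x
      have a2 : ch s m e (x + r * s) = ch s m e x := by rw [mul_comm r s]; exact hper s r x
      have a3 : ch r m e (x + r * s + E * i) = ch r m e (x + E * i) := by
        rw [show x + r * s + E * i = (x + E * i) + r * s by ring]; exact hper r s _
      have a4 : ch s m e (x + r * s + E * i) = ch s m e (x + E * i) := by
        rw [show x + r * s + E * i = (x + E * i) + s * r by ring]; exact hper s r _
      simp only [a1, a2, a3, a4]) (by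
      intro x
      have b1 := ch_abs_le r m e x
      have b2 := ch_abs_le s m e x
      have b3 := ch_abs_le r m e (x + E * i)
      have b4 := ch_abs_le s m e (x + E * i)
      simp only [abs_mul]
      have c1 : |ch r m e x| * |ch s m e x| ≤ 1 := mul_le_one₀ b1 (abs_nonneg _) b2
      have c2 : |ch r m e (x + E * i)| * |ch s m e (x + E * i)| ≤ 1 :=
        mul_le_one₀ b3 (abs_nonneg _) b4
      exact mul_le_one₀ c1 (by positivity) c2) N
  refine h1.trans ?_
  have hcomp : ∑ x ∈ range (r * s), (ch r m e x * ch s m e x) *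
      (ch r m e (x + E * i) * ch s m e (x + E * i)) =
      (∑ z : ZMod r, quadraticChar (ZMod r) (m * z + e) *
        quadraticChar (ZMod r) (m * z + e + m * (E * i))) *
      (∑ z : ZMod s, quadraticChar (ZMod s) (m * z + e) *
        quadraticChar (ZMod s) (m * z + e + m * (E * i))) := by
    rw [← sum_crt r s ((Nat.coprime_primes hr hs).2 hrs)]
    refine sum_congr rfl fun x _ => ?_
    unfold ch
    have e1 : ((m : ZMod r) * ((x + E * i : ℕ) : ZMod r) + e) =
        m * (x : ZMod r) + e + m * (E * i) := by push_cast; ring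
    have e2 : ((m : ZMod s) * ((x + E * i : ℕ) : ZMod s) + e) =
        m * (x : ZMod s) + e + m * (E * i) := by push_cast; ring
    rw [e1, e2]; ring
  have hk : ∀ (q : ℕ) [Fact q.Prime], q ≠ 2 → ¬ q ∣ m → ¬ q ∣ E →
      |∑ z : ZMod q, quadraticChar (ZMod q) (m * z + e) *
        quadraticChar (ZMod q) (m * z + e + m * (E * i))| ≤ kap q i := by
    intro q _ hq2 hqm hqE
    have hq : q.Prime := Fact.out
    have hm0 : (m : ZMod q) ≠ 0 := by rwa [Ne, ZMod.natCast_eq_zero_iff]
    rw [sum_quad_lin q hq2 _ _ _ hm0]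
    unfold kap
    by_cases hi : q ∣ i
    · have : (i : ZMod q) = 0 := (ZMod.natCast_eq_zero_iff _ _).2 hi
      rw [this, if_pos hi]
      simp only [mul_zero, if_true]
      rw [abs_of_nonneg (by have := hq.one_le; omega)]
      linarith
    · have : ¬ ((m : ZMod q) * (E * i) = 0) := by
        intro h0
        rcases mul_eq_zero.1 h0 with h | h
        · exact hm0 h
        · rcases mul_eq_zero.1 h with h | h
          · exact hqE ((ZMod.natCast_eq_zero_iff _ _).1 h)
          · exact hi ((ZMod.natCast_eq_zero_iff _ _).1 h)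
      rw [if_neg this, if_neg hi]; simp
  rw [hcomp, abs_mul]
  have := mul_le_mul (hk r hr2 hrm hrE) (hk s hs2 hsm hsE) (abs_nonneg _)
    (by positivity : (0 : ℤ) ≤ (kap r i : ℤ))
  have h2 : (0 : ℤ) ≤ ((N / (r * s) : ℕ) : ℤ) := by positivity
  have := mul_le_mul_of_nonneg_left this h2
  push_cast at this ⊢
  linarith

end

theorem card_dvd_Ico (d J : ℕ) :
    d * ((Ico 1 J).filter (fun i => d ∣ i)).card ≤ J := by
  have h1 : ((Ico 1 J).filter (fun i => d ∣ i)).card ≤ J / d := by
    rw [← Nat.card_multiples J d]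
    refine card_le_card_of_injOn (fun i => i - 1) ?_ ?_
    · intro i hi
      simp only [coe_filter, mem_Ico, Set.mem_ofPred_eq, mem_range] at hi ⊢
      refine ⟨by omega, ?_⟩
      rw [show i - 1 + 1 = i by omega]; exact hi.2
    · intro a ha b hb hab
      simp only [coe_filter, mem_Ico, Set.mem_ofPred_eq] at ha hb hab
      omega
  calc d * _ ≤ d * (J / d) := Nat.mul_le_mul_left _ h1
    _ ≤ J := Nat.mul_div_le J d

theorem sum_kap (r s : ℕ) (hr : r.Prime) (hs : s.Prime) (hrs : r ≠ s) (J : ℕ) :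
    ∑ i ∈ Ico 1 J, kap r i * kap s i ≤ 4 * J := by
  have h1 : ∀ i ∈ Ico 1 J, kap r i * kap s i ≤ 1 + (if r ∣ i then r else 0) +
      (if s ∣ i then s else 0) + (if r * s ∣ i then r * s else 0) := by
    intro i _
    unfold kap
    have hc : Nat.Coprime r s := (Nat.coprime_primes hr hs).2 hrs
    by_cases ha : r ∣ i <;> by_cases hb : s ∣ i
    · rw [if_pos ha, if_pos hb, if_pos ha, if_pos hb, if_pos (hc.mul_dvd_of_dvd_of_dvd ha hb)]
      omega
    · rw [if_pos ha, if_neg hb, if_pos ha, if_neg hb]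
      omega
    · rw [if_neg ha, if_pos hb, if_neg ha, if_pos hb]
      omega
    · rw [if_neg ha, if_neg hb, if_neg ha, if_neg hb]
      omega
  refine (sum_le_sum h1).trans ?_
  rw [sum_add_distrib, sum_add_distrib, sum_add_distrib]
  have h2 : ∀ d, ∑ i ∈ Ico 1 J, (if d ∣ i then d else 0) ≤ J := by
    intro d
    rw [← sum_filter, sum_const, smul_eq_mul, mul_comm]
    exact card_dvd_Ico d J
  have h3 : ∑ i ∈ Ico 1 J, 1 ≤ J := by simp
  have := h2 r
  have := h2 s
  have := h2 (r * s)
  omega

end Pool.FS83
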