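import Mathlib

/-! Many primes in one of three dyadic intervals. -/

set_option autoImplicit false

namespace Pool.FS83

open Finset Real

theorem small_terms (k : ℕ) (hk : 10 ^ 8 ≤ k) :
    Real.log ((8 * k : ℕ) + 1) + 2 * √((8 * k : ℕ) : ℝ) * Real.log ((8 * k : ℕ) : ℝ) ≤ k := by
  have hk' : (10 : ℝ) ^ 8 ≤ k := by exact_mod_cast hk
  set y : ℝ := ((8 * k : ℕ) : ℝ) with hy
  have hyk : y = 8 * k := by rw [hy]; push_cast; ring
  have hy0 : 0 < y := by rw [hyk]; positivity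
  have h1 : Real.log y ≤ y ^ (1 / 4 : ℝ) / (1 / 4) := Real.log_le_rpow_div hy0.le (by norm_num)
  have hx0 : 0 < y ^ (1 / 4 : ℝ) := Real.rpow_pos_of_pos hy0 _
  have hx4 : (y ^ (1 / 4 : ℝ)) ^ 4 = y := by
    rw [← Real.rpow_natCast, ← Real.rpow_mul hy0.le]; norm_num
  have hx2 : √y = (y ^ (1 / 4 : ℝ)) ^ 2 := by
    rw [Real.sqrt_eq_rpow, ← Real.rpow_natCast, ← Real.rpow_mul hy0.le]; norm_num
  set x : ℝ := y ^ (1 / 4 : ℝ) with hx
  have hx168 : 160 ≤ x := by
    by_contra hlt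
    push Not at hlt
    have : x ^ 4 < 160 ^ 4 := by gcongr
    rw [hx4, hyk] at this
    nlinarith
  have h2 : Real.log (y + 1) ≤ 4 * x + 1 := by
    have e : y + 1 ≤ y * Real.exp 1 := by
      have := Real.add_one_le_exp (1 : ℝ)
      have hy1 : 1 ≤ y := by rw [hyk]; nlinarith
      nlinarith
    calc Real.log (y + 1) ≤ Real.log (y * Real.exp 1) := Real.log_le_log (by linarith) e
      _ = Real.log y + 1 := by rw [Real.log_mul hy0.ne' (Real.exp_pos _).ne', Real.log_exp]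
      _ ≤ 4 * x + 1 := by linarith
  have h3 : 2 * √y * Real.log y ≤ 8 * x ^ 3 := by
    rw [hx2]
    have : Real.log y ≤ 4 * x := by linarith
    have hx2' : 0 ≤ 2 * x ^ 2 := by positivity
    calc 2 * x ^ 2 * Real.log y ≤ 2 * x ^ 2 * (4 * x) := mul_le_mul_of_nonneg_left this hx2'
      _ = 8 * x ^ 3 := by ring
  have h4 : (k : ℝ) = x ^ 4 / 8 := by rw [hx4, hyk]; ring
  rw [h4]
  have h5 : 160 * x ^ 3 ≤ x ^ 4 := by
    have : 0 ≤ x ^ 3 := by positivity
    nlinarith
  have h6 : 4 * x + 1 ≤ x ^ 3 := by nlinarith [sq_nonneg x, mul_pos hx0 hx0]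
  nlinarith

/-- the primes in `(K, 2K]` -/
def PR (K : ℕ) : Finset ℕ := (Finset.Ioc K (2 * K)).filter Nat.Prime

theorem exists_many (k : ℕ) (hk : 10 ^ 8 ≤ k) :
    ∃ K, (K = k ∨ K = 2 * k ∨ K = 4 * k) ∧
      (k : ℝ) ≤ (PR K).card * Real.log (8 * k) := by
  have hk' : (10 : ℝ) ^ 8 ≤ k := by exact_mod_cast hk
  have h1 := Chebyshev.theta_ge (8 * k)
  have h2 := Chebyshev.theta_le_log4_mul_x (x := (k : ℝ)) (by positivity)
  have h3 := small_terms k hk
  have hlog4 : Real.log 4 = 2 * Real.log 2 := by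
    rw [show (4 : ℝ) = 2 ^ 2 by norm_num, Real.log_pow]; norm_num
  have hl2 : 0.69 < Real.log 2 := by have := Real.log_two_gt_d9; linarith
  -- sum over the primes in `(k, 8k]`
  have h4 : Chebyshev.theta ((8 * k : ℕ) : ℝ) - Chebyshev.theta (k : ℝ) ≤
      (((Finset.Ioc k (8 * k)).filter Nat.Prime).card : ℝ) * Real.log (8 * k) := by
    rw [Chebyshev.theta_eq_sum_Icc, Chebyshev.theta_eq_sum_Icc, Nat.floor_natCast,
      Nat.floor_natCast]
    have hsub : (Finset.Icc 0 k).filter Nat.Prime ⊆ (Finset.Icc 0 (8 * k)).filter Nat.Prime := by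
      apply Finset.filter_subset_filter
      apply Finset.Icc_subset_Icc_right; omega
    rw [← Finset.sum_sdiff hsub, add_sub_cancel_right]
    have hset : (Finset.Icc 0 (8 * k)).filter Nat.Prime \ (Finset.Icc 0 k).filter Nat.Prime =
        (Finset.Ioc k (8 * k)).filter Nat.Prime := by
      ext p
      simp only [Finset.mem_sdiff, Finset.mem_filter, Finset.mem_Icc, Finset.mem_Ioc]
      constructor
      · rintro ⟨⟨⟨_, h1⟩, h2⟩, h3⟩
        refine ⟨⟨?_, h1⟩, h2⟩
        by_contra hc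
        exact h3 ⟨⟨Nat.zero_le _, by omega⟩, h2⟩
      · rintro ⟨⟨h1, h2⟩, h3⟩
        exact ⟨⟨⟨Nat.zero_le _, h2⟩, h3⟩, fun h => by omega⟩
    rw [hset]
    calc ∑ p ∈ (Finset.Ioc k (8 * k)).filter Nat.Prime, Real.log (p : ℝ) ≤
        ∑ p ∈ (Finset.Ioc k (8 * k)).filter Nat.Prime, Real.log (8 * k) := by
          refine Finset.sum_le_sum fun p hp => ?_
          rw [Finset.mem_filter, Finset.mem_Ioc] at hp
          have hp0 : 0 < p := hp.2.pos
          refine Real.log_le_log (by exact_mod_cast hp0) ?_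
          exact_mod_cast hp.1.2
      _ = _ := by rw [Finset.sum_const, nsmul_eq_mul]
  have h5 : 3 * (k : ℝ) ≤ (((Finset.Ioc k (8 * k)).filter Nat.Prime).card : ℝ) *
      Real.log (8 * k) := by
    refine le_trans ?_ h4
    have e : (((8 * k : ℕ)) : ℝ) = 8 * k := by push_cast; ring
    rw [hlog4] at h2
    rw [e] at h1 h3
    rw [e]
    nlinarith
  have h6 : (Finset.Ioc k (8 * k)).filter Nat.Prime ⊆ PR k ∪ PR (2 * k) ∪ PR (4 * k) := by
    intro p hp
    unfold PR
    simp only [Finset.mem_union, Finset.mem_filter, Finset.mem_Ioc] at hp ⊢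
    obtain ⟨⟨h1, h2⟩, h3⟩ := hp
    rcases le_or_gt p (2 * k) with h | h
    · left; left; exact ⟨⟨h1, h⟩, h3⟩
    · rcases le_or_gt p (4 * k) with h' | h'
      · left; right; exact ⟨⟨h, by omega⟩, h3⟩
      · right; exact ⟨⟨h', by omega⟩, h3⟩
  have h7 : (((Finset.Ioc k (8 * k)).filter Nat.Prime).card : ℝ) ≤
      (PR k).card + (PR (2 * k)).card + (PR (4 * k)).card := by
    have := (Finset.card_le_card h6).trans ((Finset.card_union_le _ _).trans
      (Nat.add_le_add_right (Finset.card_union_le _ _) _))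
    exact_mod_cast this
  have hl : 0 < Real.log (8 * k) := Real.log_pos (by nlinarith)
  by_contra hcon
  push Not at hcon
  have c1 := hcon k (Or.inl rfl)
  have c2 := hcon (2 * k) (Or.inr (Or.inl rfl))
  have c3 := hcon (4 * k) (Or.inr (Or.inr rfl))
  nlinarith [mul_le_mul_of_nonneg_right h7 hl.le]

end Pool.FS83
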