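import Pool.Agent.FS83.Moment
import Pool.Agent.FS83.Cohn
import Pool.Agent.FS83.Primes

/-! The exceptional set. -/

set_option autoImplicit false

namespace Pool.FS83

open Finset Real

open Classical in
/-- primes `p ≤ N` such that `F_p = s k ^ 2` with `s ≤ B p` -/
noncomputable def Exc (N B : ℕ) : Finset ℕ :=
  (range (N + 1)).filter (fun p => p.Prime ∧ ∃ s k : ℕ, Nat.fib p = s * k ^ 2 ∧ s ≤ B * p)

open Classical in
/-- the pieces -/
noncomputable def Ame (N K m : ℕ) (e : ℤ) : Finset ℕ :=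
  (range (N + 1)).filter
    (fun p => p.Prime ∧ 2 * K + 1 < p ∧ ∃ k : ℕ, (Nat.fib p : ℤ) = (m * p + e) * k ^ 2)

theorem mem_cover {N B K p : ℕ} (hK : 5 ≤ K) (hp : p ∈ Exc N B) (hpK : 2 * K + 1 < p) :
    ∃ m ∈ Icc 1 B, p ∈ Ame N K m 1 ∨ p ∈ Ame N K m (-1) := by
  classical
  unfold Exc at hp
  rw [mem_filter] at hp
  obtain ⟨hpN, hpp, s, k, hsk, hsB⟩ := hp
  have hp7 : 7 ≤ p := by omega
  have hs0 : 0 < s := by
    rcases Nat.eq_zero_or_pos s with h | h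
    · rw [h, zero_mul, Nat.fib_eq_zero] at hsk; omega
    · exact h
  rcases dvd_fib_mod hpp hp7 s ⟨k ^ 2, hsk⟩ with h | h
  · -- `s = m p + 1`
    have h1 : p ∣ s - 1 := by
      rw [← ZMod.natCast_eq_zero_iff, Nat.cast_sub hs0, h]; simp
    obtain ⟨m, hm⟩ := h1
    have hm0 : m ≠ 0 := by
      rintro rfl
      have : s = 1 := by omega
      rw [this, one_mul] at hsk
      exact fib_prime_ne_sq hpp hp7 k hsk
    have hmB : m ≤ B := by
      have : p * m ≤ B * p := by omega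
      rw [mul_comm] at this
      exact Nat.le_of_mul_le_mul_right this (by omega)
    refine ⟨m, mem_Icc.2 ⟨by omega, hmB⟩, Or.inl ?_⟩
    unfold Ame
    rw [mem_filter]
    refine ⟨hpN, hpp, hpK, k, ?_⟩
    have : s = m * p + 1 := by rw [mul_comm]; omega
    rw [hsk, this]; push_cast; ring
  · have h1 : p ∣ s + 1 := by
      rw [← ZMod.natCast_eq_zero_iff, Nat.cast_add, h]; simp
    obtain ⟨m, hm⟩ := h1
    have hm0 : m ≠ 0 := by rintro rfl; omega
    have hmB : m ≤ B := by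
      by_contra hc
      have h2 : p * (B + 1) ≤ p * m := Nat.mul_le_mul_left _ (by omega)
      have h3 : p * (B + 1) = B * p + p := by ring
      omega
    refine ⟨m, mem_Icc.2 ⟨by omega, hmB⟩, Or.inr ?_⟩
    unfold Ame
    rw [mem_filter]
    refine ⟨hpN, hpp, hpK, k, ?_⟩
    have : (s : ℤ) = m * p + (-1) := by
      have : (s : ℤ) + 1 = p * m := by exact_mod_cast hm
      rw [mul_comm]; linarith
    rw [hsk]; push_cast; rw [this]

theorem exc_card_le {N B K : ℕ} (hK : 5 ≤ K) (Y : ℝ)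
    (hY : ∀ m ∈ Icc 1 B, ∀ e : ℤ, e = 1 ∨ e = -1 → ((Ame N K m e).card : ℝ) ≤ Y) :
    ((Exc N B).card : ℝ) ≤ 2 * K + 2 + B * (2 * Y) := by
  classical
  have hsub : Exc N B ⊆ range (2 * K + 2) ∪
      (Icc 1 B).biUnion (fun m => Ame N K m 1 ∪ Ame N K m (-1)) := by
    intro p hp
    rw [mem_union]
    by_cases hpK : 2 * K + 1 < p
    · right
      obtain ⟨m, hm, h⟩ := mem_cover hK hp hpK
      rw [mem_biUnion]
      exact ⟨m, hm, mem_union.2 h⟩
    · left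
      exact mem_range.2 (by omega)
  have h1 := (card_le_card hsub).trans (card_union_le _ _)
  rw [card_range] at h1
  have h2 : (((Icc 1 B).biUnion (fun m => Ame N K m 1 ∪ Ame N K m (-1))).card : ℝ) ≤
      B * (2 * Y) := by
    have := card_biUnion_le (s := Icc 1 B) (t := fun m => Ame N K m 1 ∪ Ame N K m (-1))
    calc (((Icc 1 B).biUnion (fun m => Ame N K m 1 ∪ Ame N K m (-1))).card : ℝ) ≤
        ((∑ m ∈ Icc 1 B, (Ame N K m 1 ∪ Ame N K m (-1)).card : ℕ) : ℝ) := by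
          exact_mod_cast this
      _ = ∑ m ∈ Icc 1 B, ((Ame N K m 1 ∪ Ame N K m (-1)).card : ℝ) := by push_cast; rfl
      _ ≤ ∑ m ∈ Icc 1 B, (2 * Y) := by
          refine sum_le_sum fun m hm => ?_
          have a := hY m hm 1 (Or.inl rfl)
          have b := hY m hm (-1) (Or.inr rfl)
          have c : ((Ame N K m 1 ∪ Ame N K m (-1)).card : ℝ) ≤
              (Ame N K m 1).card + (Ame N K m (-1)).card := by
            exact_mod_cast card_union_le _ _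
          linarith
      _ = B * (2 * Y) := by rw [sum_const, Nat.card_Icc, nsmul_eq_mul]; simp
  have h3 : ((Exc N B).card : ℝ) ≤ ((2 * K + 2 : ℕ) : ℝ) +
      (((Icc 1 B).biUnion (fun m => Ame N K m 1 ∪ Ame N K m (-1))).card : ℝ) := by
    exact_mod_cast h1
  push_cast at h3
  linarith

theorem ame_bound {N K m : ℕ} {e : ℤ} (hK : 5 ≤ K) (hm0 : 1 ≤ m) (hm : m ≤ K)  :
    ((Ame N K m e).card : ℝ) * (PR K).card ≤ ((N + 1 : ℕ) : ℝ) + (PR K).card *
      (Real.sqrt (4 * (2 * K + 1) ^ 2 * ((N + 1 : ℕ) : ℝ) + 8 * ((N + 1 : ℕ) : ℝ) ^ 2 / K ^ 2 +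
        8 * K ^ 2 * ((N + 1 : ℕ) : ℝ)) + 4 * (2 * K + 1) ^ 2) := by
  classical
  refine moment m e K hK hm0 hm (N + 1) (PR K) (Ame N K m e) ?_ ?_ ?_
  · intro r hr
    unfold PR at hr
    rw [mem_filter, mem_Ioc] at hr
    exact ⟨hr.2, hr.1.1, hr.1.2⟩
  · exact filter_subset _ _
  · intro p hp r hr
    unfold Ame at hp
    rw [mem_filter] at hp
    unfold PR at hr
    rw [mem_filter, mem_Ioc] at hr
    obtain ⟨_, hpp, hpK, k, hk⟩ := hp
    exact fr_eq_one m e p k r hr.2 hk (not_dvd_fib_of_lt hpp (by omega) hr.2 (by omega))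

/-- numerical form of the bound for one `m` -/
theorem ame_numeric {N k K m : ℕ} {e : ℤ} (hk : 10 ^ 8 ≤ k)
    (hkN' : N < (k + 1) ^ 4) (hK : K = k ∨ K = 2 * k ∨ K = 4 * k)
    (hPR : (k : ℝ) ≤ (PR K).card * Real.log (8 * k)) (hm0 : 1 ≤ m) (hm : m ≤ k) :
    ((Ame N K m e).card : ℝ) ≤ 100 * (k : ℝ) ^ 3 * Real.log (8 * k) := by
  have hk' : (10 : ℝ) ^ 8 ≤ k := by exact_mod_cast hk
  have hk0 : (0 : ℝ) < k := by linarith [hk', (by norm_num : (0 : ℝ) < 10 ^ 8)]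
  have hkK : k ≤ K := by omega
  have hK4 : K ≤ 4 * k := by omega
  have hK5 : 5 ≤ K := by omega
  have h1 := ame_bound (N := N) (K := K) (m := m) (e := e) hK5 hm0 (by omega)
  set n : ℝ := ((N + 1 : ℕ) : ℝ) with hn
  have hN2 : n ≤ 2 * (k : ℝ) ^ 4 := by
    have h2 : ((N : ℝ)) < ((k : ℝ) + 1) ^ 4 := by exact_mod_cast hkN'
    have h3 : ((k : ℝ) + 1) ^ 4 + 1 ≤ 2 * (k : ℝ) ^ 4 := by nlinarith [pow_pos hk0 2, pow_pos hk0 3]
    have h4 : n = N + 1 := by rw [hn]; push_cast; ring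
    linarith
  have hn0 : 0 < n := by rw [hn]; positivity
  have hKr : (k : ℝ) ≤ K := by exact_mod_cast hkK
  have hKr4 : (K : ℝ) ≤ 4 * k := by exact_mod_cast hK4
  have hl : 1 ≤ Real.log (8 * k) := by
    have h2 : Real.exp 1 ≤ 8 * k := by
      have := Real.exp_one_lt_d9
      linarith
    have := Real.log_le_log (Real.exp_pos 1) h2
    rwa [Real.log_exp] at this
  have hc0 : (0 : ℝ) < (PR K).card := by
    rcases Nat.eq_zero_or_pos (PR K).card with h | h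
    · rw [h] at hPR; simp at hPR; linarith
    · exact_mod_cast h
  -- the square root
  have hsq : Real.sqrt (4 * (2 * K + 1) ^ 2 * n + 8 * n ^ 2 / K ^ 2 + 8 * K ^ 2 * n) ≤
      34 * (k : ℝ) ^ 3 := by
    rw [Real.sqrt_le_left (by positivity)]
    have a1 : (2 * (K : ℝ) + 1) ≤ 9 * k := by linarith
    have a2 : 4 * (2 * (K : ℝ) + 1) ^ 2 * n ≤ 4 * (9 * k) ^ 2 * (2 * (k : ℝ) ^ 4) := by gcongr
    have a3 : 8 * n ^ 2 / (K : ℝ) ^ 2 ≤ 8 * (2 * (k : ℝ) ^ 4) ^ 2 / (k : ℝ) ^ 2 := by gcongr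
    have a4 : 8 * (2 * (k : ℝ) ^ 4) ^ 2 / (k : ℝ) ^ 2 = 32 * (k : ℝ) ^ 6 := by
      field_simp; ring
    have a5 : 8 * (K : ℝ) ^ 2 * n ≤ 8 * (4 * k) ^ 2 * (2 * (k : ℝ) ^ 4) := by gcongr
    have a6 : 0 ≤ (k : ℝ) ^ 6 := by positivity
    nlinarith
  have hlast : 4 * (2 * (K : ℝ) + 1) ^ 2 ≤ (k : ℝ) ^ 3 := by
    have a1 : (2 * (K : ℝ) + 1) ≤ 9 * k := by linarith
    have a2 : 4 * (2 * (K : ℝ) + 1) ^ 2 ≤ 4 * (9 * k) ^ 2 := by gcongr
    have a3 : 0 ≤ (k : ℝ) ^ 2 := by positivity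
    nlinarith
  have h2 : ((Ame N K m e).card : ℝ) * (PR K).card ≤ n + (PR K).card * (35 * (k : ℝ) ^ 3) := by
    refine h1.trans ?_
    have := mul_le_mul_of_nonneg_left (add_le_add hsq hlast) hc0.le
    nlinarith
  -- divide by the number of primes
  have h3 : n ≤ (PR K).card * (2 * (k : ℝ) ^ 3 * Real.log (8 * k)) := by
    calc n ≤ 2 * (k : ℝ) ^ 4 := hN2
      _ = 2 * (k : ℝ) ^ 3 * k := by ring
      _ ≤ 2 * (k : ℝ) ^ 3 * ((PR K).card * Real.log (8 * k)) := by gcongr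
      _ = _ := by ring
  have h4 : ((PR K).card : ℝ) * (Ame N K m e).card ≤ (PR K).card *
      (2 * (k : ℝ) ^ 3 * Real.log (8 * k) + 35 * (k : ℝ) ^ 3) := by nlinarith
  have h5 := le_of_mul_le_mul_left h4 hc0
  have h6 : 35 * (k : ℝ) ^ 3 ≤ 35 * (k : ℝ) ^ 3 * Real.log (8 * k) := by
    have : 0 ≤ 35 * (k : ℝ) ^ 3 := by positivity
    nlinarith
  have h7 : 0 ≤ (k : ℝ) ^ 3 * Real.log (8 * k) := by positivity
  nlinarith

/-- Main counting theorem. -/
theorem exc_bound : ∃ C : ℝ, 0 < C ∧ ∀ N : ℕ, 2 ≤ N → ∀ B : ℕ, 1 ≤ B →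
    ((Exc N B).card : ℝ) ≤ C * B * (N : ℝ) ^ (3 / 4 : ℝ) * Real.log N := by
  refine ⟨10 ^ 40, by norm_num, fun N hN B hB => ?_⟩
  have hN0 : (0 : ℝ) < N := by have : 0 < N := by omega
                               exact_mod_cast this
  have hB1 : (1 : ℝ) ≤ B := by exact_mod_cast hB
  have htriv : ((Exc N B).card : ℝ) ≤ N + 1 := by
    have : (Exc N B).card ≤ N + 1 := by
      classical
      unfold Exc
      refine (card_filter_le _ _).trans ?_
      rw [card_range]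
    exact_mod_cast this
  have hlog2 : (1 : ℝ) / 2 ≤ Real.log N := by
    have h1 : Real.log 2 ≤ Real.log N := Real.log_le_log (by norm_num) (by exact_mod_cast hN)
    have := Real.log_two_gt_d9
    linarith
  set x : ℝ := (N : ℝ) ^ (1 / 4 : ℝ) with hx
  have hx0 : 0 < x := Real.rpow_pos_of_pos hN0 _
  have hx4 : x ^ 4 = N := by
    rw [hx, ← Real.rpow_natCast, ← Real.rpow_mul hN0.le]; norm_num
  have hx3 : (N : ℝ) ^ (3 / 4 : ℝ) = x ^ 3 := by
    rw [hx, ← Real.rpow_natCast, ← Real.rpow_mul hN0.le]; norm_num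
  have hx1 : 1 ≤ x := by
    rw [hx]
    exact Real.one_le_rpow (by exact_mod_cast (show 1 ≤ N by omega)) (by norm_num)
  rw [hx3]
  set k : ℕ := ⌊x⌋₊ with hk
  have hkx : (k : ℝ) ≤ x := Nat.floor_le hx0.le
  have hxk : x < k + 1 := Nat.lt_floor_add_one x
  -- general trivial inequality: if `x ≤ D * B` then fine
  have htriv2 : ∀ D : ℝ, 0 ≤ D → x ≤ D * B → D ≤ 10 ^ 39 →
      ((Exc N B).card : ℝ) ≤ 10 ^ 40 * B * x ^ 3 * Real.log N := by
    intro D hD hxD hD'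
    have h1 : (N : ℝ) + 1 ≤ 2 * (x ^ 3 * x) := by
      have : x ^ 3 * x = N := by rw [← hx4]; ring
      rw [this]
      have : (1 : ℝ) ≤ N := by exact_mod_cast (show 1 ≤ N by omega)
      linarith
    have hx3' : 0 ≤ x ^ 3 := by positivity
    have h2 : x ^ 3 * x ≤ x ^ 3 * (10 ^ 39 * B) := by
      refine mul_le_mul_of_nonneg_left (hxD.trans ?_) hx3'
      exact mul_le_mul_of_nonneg_right hD' (by linarith)
    have h3 : 2 * (x ^ 3 * (10 ^ 39 * B)) ≤ 10 ^ 40 * B * x ^ 3 * Real.log N := by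
      have h4 : 0 ≤ 10 ^ 40 * B * x ^ 3 := by positivity
      have := mul_le_mul_of_nonneg_left hlog2 h4
      nlinarith
    linarith
  by_cases hk8 : 10 ^ 8 ≤ k
  swap
  · have : x ≤ 10 ^ 8 := by
      have : (k : ℝ) + 1 ≤ 10 ^ 8 := by exact_mod_cast (show k + 1 ≤ 10 ^ 8 by omega)
      linarith
    refine htriv2 (10 ^ 8) (by norm_num) ?_ (by norm_num)
    nlinarith
  by_cases hkB : k < B
  · have : x ≤ B := by
      have : (k : ℝ) + 1 ≤ B := by exact_mod_cast hkB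
      linarith
    exact htriv2 1 (by norm_num) (by linarith) (by norm_num)
  push Not at hkB
  have hk' : (10 : ℝ) ^ 8 ≤ k := by exact_mod_cast hk8
  have hkN : k ^ 4 ≤ N := by
    have : (k : ℝ) ^ 4 ≤ N := by rw [← hx4]; gcongr
    exact_mod_cast this
  have hkN' : N < (k + 1) ^ 4 := by
    have : (N : ℝ) < ((k : ℝ) + 1) ^ 4 := by rw [← hx4]; gcongr
    exact_mod_cast this
  obtain ⟨K, hK, hPR⟩ := exists_many k hk8
  have h1 := exc_card_le (N := N) (B := B) (K := K) (by omega)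
    (100 * (k : ℝ) ^ 3 * Real.log (8 * k)) (by
      intro m hm e _
      rw [mem_Icc] at hm
      exact ame_numeric hk8 hkN' hK hPR hm.1 (by omega))
  have hK4 : (K : ℝ) ≤ 4 * k := by
    have : K ≤ 4 * k := by omega
    exact_mod_cast this
  have hlog : Real.log (8 * k) ≤ 4 * Real.log N := by
    have h2 : (8 * (k : ℝ)) ≤ N ^ 4 := by
      have h3 : (k : ℝ) ≤ N := by
        refine hkx.trans ?_
        rw [← hx4]
        exact le_self_pow₀ hx1 (by norm_num)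
      have h4 : (2 : ℝ) ≤ N := by exact_mod_cast hN
      calc 8 * (k : ℝ) ≤ 8 * N := by linarith
        _ ≤ N ^ 3 * N := by gcongr; nlinarith [pow_le_pow_left₀ (by norm_num) h4 3]
        _ = N ^ 4 := by ring
    have h5 := Real.log_le_log (by linarith) h2
    rwa [Real.log_pow] at h5
  have hk3 : (k : ℝ) ^ 3 ≤ x ^ 3 := by gcongr
  have hk1 : (k : ℝ) ≤ x ^ 3 := hkx.trans (le_self_pow₀ hx1 (by norm_num))
  have hlog0 : 0 ≤ Real.log (8 * (k : ℝ)) := Real.log_nonneg (by linarith)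
  have h2 : 100 * (k : ℝ) ^ 3 * Real.log (8 * k) ≤ 400 * (x ^ 3 * Real.log N) := by
    calc 100 * (k : ℝ) ^ 3 * Real.log (8 * k) ≤ 100 * x ^ 3 * (4 * Real.log N) := by gcongr
      _ = _ := by ring
  have hx3pos : 1 ≤ x ^ 3 := one_le_pow₀ hx1
  have h3 : x ^ 3 * (1 / 2) ≤ x ^ 3 * Real.log N := mul_le_mul_of_nonneg_left hlog2 (by linarith)
  set L := x ^ 3 * Real.log N with hL
  have hL0 : 0 ≤ L := by linarith
  have h4 : ((Exc N B).card : ℝ) ≤ 2 * (4 * k) + 2 + B * (2 * (400 * L)) := by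
    refine h1.trans ?_
    have : (B : ℝ) * (2 * (100 * (k : ℝ) ^ 3 * Real.log (8 * k))) ≤ B * (2 * (400 * L)) := by
      gcongr
    linarith
  have h5 : (2 : ℝ) * (4 * k) + 2 ≤ 20 * L := by
    have : (k : ℝ) ≤ 2 * L := by linarith
    linarith
  have h6 : 20 * L ≤ 20 * (B * L) := by nlinarith
  have h7 : 0 ≤ B * L := by positivity
  calc ((Exc N B).card : ℝ) ≤ 20 * (B * L) + 800 * (B * L) := by linarith
    _ ≤ 10 ^ 40 * (B * L) := by nlinarith
    _ = 10 ^ 40 * B * x ^ 3 * Real.log N := by rw [hL]; ring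

end Pool.FS83
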