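import Pool.Agent.FS83.Quad
import Pool.Agent.FS83.Final

/-! The exceptional set for composite `s`. -/

set_option autoImplicit false

namespace Pool.FS83

open Finset Real

open Classical in
/-- primes `p ≤ N` such that `F_p = s k ^ 2` with `s ≤ B p ^ 2` and `s` not prime -/
noncomputable def Exc2 (N B : ℕ) : Finset ℕ :=
  (range (N + 1)).filter
    (fun p => p.Prime ∧ ∃ s k : ℕ, Nat.fib p = s * k ^ 2 ∧ s ≤ B * p ^ 2 ∧ ¬ s.Prime)

open Classical in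
/-- the pieces -/
noncomputable def Ame2 (N K : ℕ) (t : (ℕ × ℕ) × (ℤ × ℤ)) : Finset ℕ :=
  (range (N + 1)).filter
    (fun p => p.Prime ∧ 2 * K + 1 < p ∧ (t.1.1 : ℤ) * t.2.2 - t.1.2 * t.2.1 ≠ 0 ∧
      ∃ k : ℕ, (Nat.fib p : ℤ) = (t.1.1 * p + t.2.1) * (t.1.2 * p + t.2.2) * k ^ 2)

/-- the index set -/
def Ind (B : ℕ) : Finset ((ℕ × ℕ) × (ℤ × ℤ)) :=
  (((Icc 1 B) ×ˢ (Icc 1 B)).filter (fun m : ℕ × ℕ => m.1 * m.2 ≤ B)) ×ˢ
    (({1, -1} : Finset ℤ) ×ˢ ({1, -1} : Finset ℤ))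

theorem divisor_form {p a : ℕ} (hp : p.Prime) (hp7 : 7 ≤ p) (ha : 1 < a) (h : a ∣ Nat.fib p) :
    ∃ (m : ℕ) (e : ℤ), 1 ≤ m ∧ (e = 1 ∨ e = -1) ∧ (a : ℤ) = m * p + e := by
  rcases dvd_fib_mod hp hp7 a h with h | h
  · have h1 : p ∣ a - 1 := by
      rw [← ZMod.natCast_eq_zero_iff, Nat.cast_sub (by omega), h]; simp
    obtain ⟨m, hm⟩ := h1
    refine ⟨m, 1, ?_, Or.inl rfl, ?_⟩
    · rcases Nat.eq_zero_or_pos m with h0 | h0
      · subst h0; omega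
      · exact h0
    · have : (a : ℤ) - 1 = p * m := by
        have : a = p * m + 1 := by omega
        rw [this]; push_cast; ring
      linarith [mul_comm (p : ℤ) m]
  · have h1 : p ∣ a + 1 := by
      rw [← ZMod.natCast_eq_zero_iff, Nat.cast_add, h]; simp
    obtain ⟨m, hm⟩ := h1
    refine ⟨m, -1, ?_, Or.inr rfl, ?_⟩
    · rcases Nat.eq_zero_or_pos m with h0 | h0
      · subst h0; omega
      · exact h0
    · have : (a : ℤ) + 1 = p * m := by exact_mod_cast hm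
      linarith [mul_comm (p : ℤ) m]

theorem mem_cover2 {N B K p : ℕ} (hK : 5 ≤ K) (hBK : B < K) (hp : p ∈ Exc2 N B)
    (hpK : 2 * K + 1 < p) : ∃ t ∈ Ind B, p ∈ Ame2 N K t := by
  classical
  unfold Exc2 at hp
  rw [mem_filter] at hp
  obtain ⟨hpN, hpp, s, k, hsk, hsB, hsp⟩ := hp
  have hp7 : 7 ≤ p := by omega
  have hs0 : 0 < s := by
    rcases Nat.eq_zero_or_pos s with h | h
    · rw [h, zero_mul, Nat.fib_eq_zero] at hsk; omega
    · exact h
  have hs1 : s ≠ 1 := by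
    rintro rfl
    rw [one_mul] at hsk
    exact fib_prime_ne_sq hpp hp7 k hsk
  obtain ⟨a, b, ha, hb, hab⟩ : ∃ a b : ℕ, 1 < a ∧ 1 < b ∧ s = a * b := by
    have h2 : 2 ≤ s := by omega
    obtain ⟨a, b, ha, hb, hab⟩ := (Nat.not_prime_iff_exists_mul_eq h2).1 hsp
    refine ⟨a, b, ?_, ?_, hab.symm⟩
    · rcases Nat.lt_or_ge 1 a with h | h
      · exact h
      · interval_cases a
        · omega
        · omega
    · rcases Nat.lt_or_ge 1 b with h | h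
      · exact h
      · interval_cases b
        · omega
        · omega
  have hda : a ∣ Nat.fib p := ⟨b * k ^ 2, by rw [hsk, hab]; ring⟩
  have hdb : b ∣ Nat.fib p := ⟨a * k ^ 2, by rw [hsk, hab]; ring⟩
  obtain ⟨m₁, e₁, hm₁, he₁, ha'⟩ := divisor_form hpp hp7 ha hda
  obtain ⟨m₂, e₂, hm₂, he₂, hb'⟩ := divisor_form hpp hp7 hb hdb
  have hdisc : (m₁ : ℤ) * e₂ - m₂ * e₁ ≠ 0 := by
    intro h0
    have h1 : (m₁ : ℤ) = m₂ ∧ e₁ = e₂ := by
      have hm₁' : (1 : ℤ) ≤ m₁ := by exact_mod_cast hm₁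
      have hm₂' : (1 : ℤ) ≤ m₂ := by exact_mod_cast hm₂
      rcases he₁ with h | h <;> rcases he₂ with h' | h' <;> rw [h, h'] at h0 ⊢
      · exact ⟨by linarith, rfl⟩
      · exfalso; linarith
      · exfalso; linarith
      · exact ⟨by linarith, rfl⟩
    have h2 : a = b := by
      have : (a : ℤ) = b := by rw [ha', hb', h1.1, h1.2]
      exact_mod_cast this
    apply fib_prime_ne_sq hpp hp7 (a * k)
    rw [hsk, hab, ← h2]; ring
  -- `m₁ m₂ ≤ B`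
  have hmB : m₁ * m₂ ≤ B := by
    by_contra hc
    push Not at hc
    have h1 : ((B : ℤ) + 1) ≤ m₁ * m₂ := by exact_mod_cast hc
    have h2 : (a : ℤ) * b ≤ B * p ^ 2 := by
      have : a * b ≤ B * p ^ 2 := by rw [← hab]; exact hsB
      exact_mod_cast this
    have hp' : (2 * (K : ℤ) + 1) < p := by exact_mod_cast hpK
    have hBK' : (B : ℤ) < K := by exact_mod_cast hBK
    have hp0 : (0 : ℤ) < p := by linarith [Int.natCast_nonneg K]
    have hm₁' : (1 : ℤ) ≤ m₁ := by exact_mod_cast hm₁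
    have hm₂' : (1 : ℤ) ≤ m₂ := by exact_mod_cast hm₂
    have ha3 : (m₁ : ℤ) * p - 1 ≤ a := by
      rcases he₁ with h | h <;> rw [ha', h] <;> linarith
    have hb3 : (m₂ : ℤ) * p - 1 ≤ b := by
      rcases he₂ with h | h <;> rw [hb', h] <;> linarith
    have ha4 : (0 : ℤ) ≤ (m₁ : ℤ) * p - 1 := by nlinarith
    have hb4 : (0 : ℤ) ≤ (m₂ : ℤ) * p - 1 := by nlinarith
    have h3 : ((m₁ : ℤ) * p - 1) * ((m₂ : ℤ) * p - 1) ≤ B * p ^ 2 :=
      (mul_le_mul ha3 hb3 hb4 (by linarith)).trans h2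
    -- `(m₁ p - 1)(m₂ p - 1) = m₁ m₂ p ^ 2 - (m₁ + m₂) p + 1`, `m₁ + m₂ ≤ m₁ m₂ + 1`
    have h4 : (m₁ : ℤ) + m₂ ≤ m₁ * m₂ + 1 := by nlinarith
    have h5 : (m₁ : ℤ) * m₂ * (p ^ 2 - p) ≤ B * p ^ 2 + p := by nlinarith
    have h6 : (0 : ℤ) ≤ p ^ 2 - p := by nlinarith
    have h7 : ((B : ℤ) + 1) * (p ^ 2 - p) ≤ m₁ * m₂ * (p ^ 2 - p) :=
      mul_le_mul_of_nonneg_right h1 h6
    have h8 : (p : ℤ) * p ≤ (B + 2) * p := by nlinarith
    have h9 : (p : ℤ) ≤ B + 2 := le_of_mul_le_mul_right h8 hp0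
    linarith
  have hm₁B : m₁ ≤ B := (Nat.le_mul_of_pos_right _ hm₂).trans hmB
  have hm₂B : m₂ ≤ B := (Nat.le_mul_of_pos_left _ hm₁).trans hmB
  refine ⟨((m₁, m₂), (e₁, e₂)), ?_, ?_⟩
  · unfold Ind
    rw [mem_product, mem_filter, mem_product, mem_product, mem_Icc, mem_Icc]
    refine ⟨⟨⟨⟨hm₁, hm₁B⟩, ⟨hm₂, hm₂B⟩⟩, hmB⟩, ?_, ?_⟩
    · rcases he₁ with h | h <;> simp [h]
    · rcases he₂ with h | h <;> simp [h]
  · unfold Ame2
    rw [mem_filter]
    refine ⟨hpN, hpp, hpK, hdisc, k, ?_⟩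
    simp only
    rw [← ha', ← hb', hsk, hab]; push_cast; ring

theorem card_ind (B : ℕ) : ((Ind B).card : ℝ) ≤ 4 * (B * (1 + Real.log B)) := by
  unfold Ind
  rw [card_product, card_product]
  have h1 : (({1, -1} : Finset ℤ)).card = 2 := by decide
  rw [h1]
  have h2 : ((((Icc 1 B) ×ˢ (Icc 1 B)).filter (fun m : ℕ × ℕ => m.1 * m.2 ≤ B)).card : ℝ) ≤
      B * (1 + Real.log B) := by
    have h3 : (((Icc 1 B) ×ˢ (Icc 1 B)).filter (fun m : ℕ × ℕ => m.1 * m.2 ≤ B)).card ≤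
        ∑ m ∈ Icc 1 B, B / m := by
      have h4 : ((Icc 1 B) ×ˢ (Icc 1 B)).filter (fun m : ℕ × ℕ => m.1 * m.2 ≤ B) ⊆
          (Icc 1 B).biUnion (fun m => (Icc 1 (B / m)).map ⟨fun b => (m, b), fun x y h => by
            simpa using h⟩) := by
        rintro ⟨x, y⟩ hxy
        rw [mem_filter, mem_product, mem_Icc, mem_Icc] at hxy
        rw [mem_biUnion]
        refine ⟨x, mem_Icc.2 hxy.1.1, ?_⟩
        rw [mem_map]
        refine ⟨y, mem_Icc.2 ⟨hxy.1.2.1, ?_⟩, rfl⟩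
        rw [Nat.le_div_iff_mul_le (by omega), mul_comm]
        exact hxy.2
      refine (card_le_card h4).trans (card_biUnion_le.trans (le_of_eq ?_))
      refine sum_congr rfl fun m _ => ?_
      rw [card_map, Nat.card_Icc, Nat.add_sub_cancel]
    have h5 : ((∑ m ∈ Icc 1 B, B / m : ℕ) : ℝ) ≤ B * (harmonic B : ℝ) := by
      rw [harmonic_eq_sum_Icc]
      push_cast
      rw [mul_sum]
      refine sum_le_sum fun m _ => ?_
      rw [← div_eq_mul_inv]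
      exact Nat.cast_div_le
    calc _ ≤ ((∑ m ∈ Icc 1 B, B / m : ℕ) : ℝ) := by exact_mod_cast h3
      _ ≤ B * (harmonic B : ℝ) := h5
      _ ≤ B * (1 + Real.log B) := by
          have := harmonic_le_one_add_log B
          gcongr
  push_cast
  linarith

theorem exc2_card_le {N B K : ℕ} (hK : 5 ≤ K) (hBK : B < K) (Y : ℝ)
    (hY : ∀ t ∈ Ind B, ((Ame2 N K t).card : ℝ) ≤ Y) :
    ((Exc2 N B).card : ℝ) ≤ 2 * K + 2 + (Ind B).card * Y := by
  classical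
  have hsub : Exc2 N B ⊆ range (2 * K + 2) ∪ (Ind B).biUnion (fun t => Ame2 N K t) := by
    intro p hp
    rw [mem_union]
    by_cases hpK : 2 * K + 1 < p
    · right
      obtain ⟨t, ht, h⟩ := mem_cover2 hK hBK hp hpK
      rw [mem_biUnion]
      exact ⟨t, ht, h⟩
    · left
      exact mem_range.2 (by omega)
  have h1 := (card_le_card hsub).trans (card_union_le _ _)
  rw [card_range] at h1
  have h2 : (((Ind B).biUnion (fun t => Ame2 N K t)).card : ℝ) ≤ (Ind B).card * Y := by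
    calc (((Ind B).biUnion (fun t => Ame2 N K t)).card : ℝ) ≤
        ((∑ t ∈ Ind B, (Ame2 N K t).card : ℕ) : ℝ) := by exact_mod_cast card_biUnion_le
      _ = ∑ t ∈ Ind B, ((Ame2 N K t).card : ℝ) := by push_cast; rfl
      _ ≤ ∑ t ∈ Ind B, Y := sum_le_sum hY
      _ = (Ind B).card * Y := by rw [sum_const, nsmul_eq_mul]
  have h3 : ((Exc2 N B).card : ℝ) ≤ ((2 * K + 2 : ℕ) : ℝ) +
      (((Ind B).biUnion (fun t => Ame2 N K t)).card : ℝ) := by exact_mod_cast h1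
  push_cast at h3
  linarith

theorem ame2_bound {N K B : ℕ} {t : (ℕ × ℕ) × (ℤ × ℤ)} (hK : 5 ≤ K) (hBK : B < K)
    (ht : t ∈ Ind B) :
    ((Ame2 N K t).card : ℝ) * (PR K).card ≤ ((N + 1 : ℕ) : ℝ) + (PR K).card *
      (((N + 1 : ℕ) : ℝ) / K ^ 2 + 16 * K ^ 2 * (2 * K + 1) ^ 2) := by
  classical
  obtain ⟨⟨m₁, m₂⟩, ⟨e₁, e₂⟩⟩ := t
  by_cases hd : (m₁ : ℤ) * e₂ - m₂ * e₁ ≠ 0
  swap
  · have : Ame2 N K ((m₁, m₂), (e₁, e₂)) = ∅ := by
      unfold Ame2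
      rw [filter_eq_empty_iff]
      rintro p _ ⟨_, _, h, _⟩
      exact hd h
    rw [this, card_empty, Nat.cast_zero, zero_mul]
    positivity
  unfold Ind at ht
  rw [mem_product, mem_filter, mem_product, mem_product, mem_Icc, mem_Icc] at ht
  obtain ⟨⟨⟨⟨hm₁, hm₁B⟩, ⟨hm₂, hm₂B⟩⟩, hmB⟩, he₁, he₂⟩ := ht
  simp only [mem_insert, mem_singleton] at hm₁ hm₁B hm₂ hm₂B hmB he₁ he₂
  have hdisc : |(m₁ : ℤ) * e₂ - m₂ * e₁| ≤ K := by
    have h1 : m₁ + m₂ ≤ m₁ * m₂ + 1 := by nlinarith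
    have h2 : m₁ + m₂ ≤ K := by omega
    have h3 : (m₁ : ℤ) + m₂ ≤ K := by exact_mod_cast h2
    have h4 : (0 : ℤ) ≤ m₁ := by positivity
    have h5 : (0 : ℤ) ≤ m₂ := by positivity
    rw [abs_le]
    rcases he₁ with h | h <;> rcases he₂ with h' | h' <;> rw [h, h'] <;>
      constructor <;> linarith
  refine moment_abs (fr2 m₁ e₁ m₂ e₂) (fr2_abs_le m₁ e₁ m₂ e₂) (N + 1) (PR K)
    (Ame2 N K ((m₁, m₂), (e₁, e₂))) ?_ ?_ _ (by positivity) ?_
  · exact filter_subset _ _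
  · intro p hp r hr
    unfold Ame2 at hp
    rw [mem_filter] at hp
    unfold PR at hr
    rw [mem_filter, mem_Ioc] at hr
    obtain ⟨_, hpp, hpK, _, k, hk⟩ := hp
    exact fr2_eq_one m₁ e₁ m₂ e₂ p k r hr.2 hk
      (not_dvd_fib_of_lt hpp (by omega) hr.2 (by omega))
  · intro r hr s hs hrs
    unfold PR at hr hs
    rw [mem_filter, mem_Ioc] at hr hs
    exact pair_bound2 m₁ e₁ m₂ e₂ K hK hm₁ (by omega) hm₂ (by omega) hd hdisc r s hr.2 hs.2 hrs
      hr.1.1 hr.1.2 hs.1.1 hs.1.2 (N + 1)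

theorem ame2_numeric {N k K B : ℕ} {t : (ℕ × ℕ) × (ℤ × ℤ)} (hk : 10 ^ 8 ≤ k)
    (hkN' : N < (k + 1) ^ 5) (hK : K = k ∨ K = 2 * k ∨ K = 4 * k)
    (hPR : (k : ℝ) ≤ (PR K).card * Real.log (8 * k)) (hBk : B < k) (ht : t ∈ Ind B) :
    ((Ame2 N K t).card : ℝ) ≤ 30000 * (k : ℝ) ^ 4 * Real.log (8 * k) := by
  have hk' : (10 : ℝ) ^ 8 ≤ k := by exact_mod_cast hk
  have hk0 : (0 : ℝ) < k := by linarith [hk', (by norm_num : (0 : ℝ) < 10 ^ 8)]
  have hkK : k ≤ K := by omega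
  have hK4 : K ≤ 4 * k := by omega
  have hK5 : 5 ≤ K := by omega
  have h1 := ame2_bound (N := N) (K := K) (B := B) (t := t) hK5 (by omega) ht
  set n : ℝ := ((N + 1 : ℕ) : ℝ) with hn
  have hN2 : n ≤ 2 * (k : ℝ) ^ 5 := by
    have h2 : ((N : ℝ)) < ((k : ℝ) + 1) ^ 5 := by exact_mod_cast hkN'
    have h3 : ((k : ℝ) + 1) ^ 5 + 1 ≤ 2 * (k : ℝ) ^ 5 := by
      nlinarith [pow_pos hk0 2, pow_pos hk0 3, pow_pos hk0 4]
    have h4 : n = N + 1 := by rw [hn]; push_cast; ring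
    linarith
  have hn0 : 0 < n := by rw [hn]; positivity
  have hKr : (k : ℝ) ≤ K := by exact_mod_cast hkK
  have hKr4 : (K : ℝ) ≤ 4 * k := by exact_mod_cast hK4
  have hl : 1 ≤ Real.log (8 * k) := by
    have h2 : Real.exp 1 ≤ 8 * k := by
      have := Real.exp_one_lt_d9
      linarith
    have := Real.log_le_log (Real.exp_pos 1) h2
    rwa [Real.log_exp] at this
  have hc0 : (0 : ℝ) < (PR K).card := by
    rcases Nat.eq_zero_or_pos (PR K).card with h | h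
    · rw [h] at hPR; simp at hPR; linarith
    · exact_mod_cast h
  have hmain : n / (K : ℝ) ^ 2 + 16 * K ^ 2 * (2 * K + 1) ^ 2 ≤ 20738 * (k : ℝ) ^ 4 := by
    have a1 : (2 * (K : ℝ) + 1) ≤ 9 * k := by linarith
    have a2 : n / (K : ℝ) ^ 2 ≤ 2 * (k : ℝ) ^ 5 / (k : ℝ) ^ 2 := by gcongr
    have a3 : 2 * (k : ℝ) ^ 5 / (k : ℝ) ^ 2 = 2 * (k : ℝ) ^ 3 := by field_simp
    have a4 : 16 * (K : ℝ) ^ 2 * (2 * K + 1) ^ 2 ≤ 16 * (4 * k) ^ 2 * (9 * k) ^ 2 := by gcongr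
    have a5 : 2 * (k : ℝ) ^ 3 ≤ 2 * (k : ℝ) ^ 4 := by
      have : 0 ≤ (k : ℝ) ^ 3 := by positivity
      nlinarith
    nlinarith
  have h2 : ((Ame2 N K t).card : ℝ) * (PR K).card ≤ n + (PR K).card * (20738 * (k : ℝ) ^ 4) := by
    refine h1.trans ?_
    have := mul_le_mul_of_nonneg_left hmain hc0.le
    linarith
  have h3 : n ≤ (PR K).card * (2 * (k : ℝ) ^ 4 * Real.log (8 * k)) := by
    calc n ≤ 2 * (k : ℝ) ^ 5 := hN2
      _ = 2 * (k : ℝ) ^ 4 * k := by ring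
      _ ≤ 2 * (k : ℝ) ^ 4 * ((PR K).card * Real.log (8 * k)) := by gcongr
      _ = _ := by ring
  have h4 : ((PR K).card : ℝ) * (Ame2 N K t).card ≤ (PR K).card *
      (2 * (k : ℝ) ^ 4 * Real.log (8 * k) + 20738 * (k : ℝ) ^ 4) := by nlinarith
  have h5 := le_of_mul_le_mul_left h4 hc0
  have h6 : 20738 * (k : ℝ) ^ 4 ≤ 20738 * (k : ℝ) ^ 4 * Real.log (8 * k) := by
    have : 0 ≤ 20738 * (k : ℝ) ^ 4 := by positivity
    nlinarith
  have h7 : 0 ≤ (k : ℝ) ^ 4 * Real.log (8 * k) := by positivity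
  nlinarith

/-- Counting theorem for composite `s`. -/
theorem exc2_bound : ∃ C : ℝ, 0 < C ∧ ∀ N : ℕ, 2 ≤ N → ∀ B : ℕ, 1 ≤ B →
    ((Exc2 N B).card : ℝ) ≤ C * B * (N : ℝ) ^ (4 / 5 : ℝ) * Real.log N ^ 2 := by
  refine ⟨10 ^ 40, by norm_num, fun N hN B hB => ?_⟩
  have hN0 : (0 : ℝ) < N := by have : 0 < N := by omega
                               exact_mod_cast this
  have hB1 : (1 : ℝ) ≤ B := by exact_mod_cast hB
  have htriv : ((Exc2 N B).card : ℝ) ≤ N + 1 := by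
    have : (Exc2 N B).card ≤ N + 1 := by
      classical
      unfold Exc2
      refine (card_filter_le _ _).trans ?_
      rw [card_range]
    exact_mod_cast this
  have hlog2 : (1 : ℝ) / 2 ≤ Real.log N := by
    have h1 : Real.log 2 ≤ Real.log N := Real.log_le_log (by norm_num) (by exact_mod_cast hN)
    have := Real.log_two_gt_d9
    linarith
  have hlogsq : (1 : ℝ) / 4 ≤ Real.log N ^ 2 := by nlinarith
  set x : ℝ := (N : ℝ) ^ (1 / 5 : ℝ) with hx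
  have hx0 : 0 < x := Real.rpow_pos_of_pos hN0 _
  have hx5 : x ^ 5 = N := by
    rw [hx, ← Real.rpow_natCast, ← Real.rpow_mul hN0.le]; norm_num
  have hx4 : (N : ℝ) ^ (4 / 5 : ℝ) = x ^ 4 := by
    rw [hx, ← Real.rpow_natCast, ← Real.rpow_mul hN0.le]; norm_num
  have hx1 : 1 ≤ x := by
    rw [hx]
    exact Real.one_le_rpow (by exact_mod_cast (show 1 ≤ N by omega)) (by norm_num)
  rw [hx4]
  set k : ℕ := ⌊x⌋₊ with hk
  have hkx : (k : ℝ) ≤ x := Nat.floor_le hx0.le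
  have hxk : x < k + 1 := Nat.lt_floor_add_one x
  have htriv2 : ∀ D : ℝ, 0 ≤ D → x ≤ D * B → D ≤ 10 ^ 39 →
      ((Exc2 N B).card : ℝ) ≤ 10 ^ 40 * B * x ^ 4 * Real.log N ^ 2 := by
    intro D hD hxD hD'
    have h1 : (N : ℝ) + 1 ≤ 2 * (x ^ 4 * x) := by
      have : x ^ 4 * x = N := by rw [← hx5]; ring
      rw [this]
      have : (1 : ℝ) ≤ N := by exact_mod_cast (show 1 ≤ N by omega)
      linarith
    have hx4' : 0 ≤ x ^ 4 := by positivity
    have h2 : x ^ 4 * x ≤ x ^ 4 * (10 ^ 39 * B) := by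
      refine mul_le_mul_of_nonneg_left (hxD.trans ?_) hx4'
      exact mul_le_mul_of_nonneg_right hD' (by linarith)
    have h3 : 2 * (x ^ 4 * (10 ^ 39 * B)) ≤ 10 ^ 40 * B * x ^ 4 * Real.log N ^ 2 := by
      have h4 : 0 ≤ 10 ^ 40 * B * x ^ 4 := by positivity
      have := mul_le_mul_of_nonneg_left hlogsq h4
      nlinarith
    linarith
  by_cases hk8 : 10 ^ 8 ≤ k
  swap
  · have : x ≤ 10 ^ 8 := by
      have : (k : ℝ) + 1 ≤ 10 ^ 8 := by exact_mod_cast (show k + 1 ≤ 10 ^ 8 by omega)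
      linarith
    refine htriv2 (10 ^ 8) (by norm_num) ?_ (by norm_num)
    nlinarith
  by_cases hkB : k ≤ B
  · have : x ≤ 2 * B := by
      have : (k : ℝ) ≤ B := by exact_mod_cast hkB
      linarith
    exact htriv2 2 (by norm_num) (by linarith) (by norm_num)
  push Not at hkB
  have hk' : (10 : ℝ) ^ 8 ≤ k := by exact_mod_cast hk8
  have hkN' : N < (k + 1) ^ 5 := by
    have : (N : ℝ) < ((k : ℝ) + 1) ^ 5 := by rw [← hx5]; gcongr
    exact_mod_cast this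
  obtain ⟨K, hK, hPR⟩ := exists_many k hk8
  have h1 := exc2_card_le (N := N) (B := B) (K := K) (by omega) (by omega)
    (30000 * (k : ℝ) ^ 4 * Real.log (8 * k)) (by
      intro t ht
      exact ame2_numeric hk8 hkN' hK hPR hkB ht)
  have hK4 : (K : ℝ) ≤ 4 * k := by
    have : K ≤ 4 * k := by omega
    exact_mod_cast this
  have hkNr : (k : ℝ) ≤ N := by
    refine hkx.trans ?_
    rw [← hx5]
    exact le_self_pow₀ hx1 (by norm_num)
  have h2N : (2 : ℝ) ≤ N := by exact_mod_cast hN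
  have hlog : Real.log (8 * k) ≤ 4 * Real.log N := by
    have h2 : (8 * (k : ℝ)) ≤ N ^ 4 := by
      calc 8 * (k : ℝ) ≤ 8 * N := by linarith
        _ ≤ N ^ 3 * N := by gcongr; nlinarith [pow_le_pow_left₀ (by norm_num) h2N 3]
        _ = N ^ 4 := by ring
    have h5 := Real.log_le_log (by linarith) h2
    rwa [Real.log_pow] at h5
  have hlogB : 1 + Real.log B ≤ 3 * Real.log N := by
    have h2 : (B : ℝ) ≤ N := by
      have : (B : ℝ) ≤ k := by exact_mod_cast hkB.le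
      linarith
    have := Real.log_le_log (by linarith) h2
    linarith
  have hk4 : (k : ℝ) ^ 4 ≤ x ^ 4 := by gcongr
  have hk1 : (k : ℝ) ≤ x ^ 4 := hkx.trans (le_self_pow₀ hx1 (by norm_num))
  have hlog0 : 0 ≤ Real.log (8 * (k : ℝ)) := Real.log_nonneg (by linarith)
  have hx4pos : 1 ≤ x ^ 4 := one_le_pow₀ hx1
  set L := x ^ 4 * Real.log N ^ 2 with hL
  have hL1 : x ^ 4 * (1 / 4) ≤ L := mul_le_mul_of_nonneg_left hlogsq (by linarith)
  have hL0 : 0 ≤ L := by linarith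
  have hlogN0 : 0 ≤ Real.log N := by linarith
  have hind : ((Ind B).card : ℝ) * (30000 * (k : ℝ) ^ 4 * Real.log (8 * k)) ≤
      1440000 * (B * L) := by
    calc ((Ind B).card : ℝ) * (30000 * (k : ℝ) ^ 4 * Real.log (8 * k)) ≤
        (4 * (B * (3 * Real.log N))) * (30000 * x ^ 4 * (4 * Real.log N)) := by
          have hi : ((Ind B).card : ℝ) ≤ 4 * (B * (3 * Real.log N)) := by
            refine (card_ind B).trans ?_
            gcongr
          gcongr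
      _ = 1440000 * (B * L) := by rw [hL]; ring
  have h5 : (2 : ℝ) * (4 * k) + 2 ≤ 40 * L := by
    have : (k : ℝ) ≤ 4 * L := by linarith
    linarith
  have h6 : 40 * L ≤ 40 * (B * L) := by nlinarith
  have h7 : 0 ≤ B * L := by positivity
  calc ((Exc2 N B).card : ℝ) ≤ 40 * (B * L) + 1440000 * (B * L) := by linarith
    _ ≤ 10 ^ 40 * (B * L) := by nlinarith
    _ = 10 ^ 40 * B * x ^ 4 * Real.log N ^ 2 := by rw [hL]; ring

end Pool.FS83
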