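import Pool.Agent.FS83.TBound

/-! The second moment (square sieve) for `(m x + e) F_x`. -/

set_option autoImplicit false

namespace Pool.FS83

open Finset

/-- `χ_r (F_x)` -/
noncomputable def chF (r : ℕ) [Fact r.Prime] (x : ℕ) : ℤ :=
  quadraticChar (ZMod r) (Nat.fib x : ZMod r)

/-- `χ_r (m x + e) χ_r (F_x)` (zero if `r` is not prime) -/
noncomputable def fr (m : ℕ) (e : ℤ) (r x : ℕ) : ℤ :=
  if h : r.Prime then (@ch r ⟨h⟩ m e x) * (@chF r ⟨h⟩ x) else 0

theorem fr_eq (m : ℕ) (e : ℤ) (r x : ℕ) [hf : Fact r.Prime] :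
    fr m e r x = ch r m e x * quadraticChar (ZMod r) (Nat.fib x : ZMod r) := by
  unfold fr
  rw [dif_pos hf.out]
  rfl

theorem fr_abs_le (m : ℕ) (e : ℤ) (r x : ℕ) : |fr m e r x| ≤ 1 := by
  by_cases h : r.Prime
  · have := Fact.mk h
    rw [fr_eq, abs_mul]
    exact mul_le_one₀ (ch_abs_le r m e x) (abs_nonneg _) (quadChar_abs_le r _)
  · unfold fr; rw [dif_neg h]; simp

/-- For an exceptional `p` all the values are `1`. -/
theorem fr_eq_one (m : ℕ) (e : ℤ) (p k r : ℕ) (hr : r.Prime)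
    (hp : (Nat.fib p : ℤ) = (m * p + e) * k ^ 2) (hrp : ¬ r ∣ Nat.fib p) :
    fr m e r p = 1 := by
  have hf := Fact.mk hr
  rw [fr_eq]
  have h0 : (Nat.fib p : ZMod r) ≠ 0 := by rwa [Ne, ZMod.natCast_eq_zero_iff]
  have h1 : (Nat.fib p : ZMod r) = ((m : ZMod r) * p + e) * (k : ZMod r) ^ 2 := by
    have := congrArg (Int.cast : ℤ → ZMod r) hp
    push_cast at this
    exact this
  have h2 : ((m : ZMod r) * p + e) ≠ 0 := by
    intro h; rw [h, zero_mul] at h1; exact h0 h1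
  have h3 : (k : ZMod r) ≠ 0 := by
    intro h; rw [h] at h1; simp at h1; exact h0 h1
  rw [h1, map_mul, map_pow, quadraticChar_sq_one h3, mul_one]
  unfold ch
  rw [← sq, quadraticChar_sq_one h2]

/-- period of `x ↦ χ_r (F_x)` -/
theorem exists_period (r : ℕ) (hr : r.Prime) (h5 : r ≠ 5) :
    ∃ E : ℕ, (E = r - 1 ∨ E = 2 * (r + 1)) ∧
      ∀ x, (Nat.fib (x + E) : ZMod r) = Nat.fib x := by
  rcases period_aux r hr h5 with ⟨h, _⟩ | ⟨h, _⟩
  · exact ⟨_, Or.inl rfl, h⟩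
  · exact ⟨_, Or.inr rfl, h⟩

theorem not_dvd_period {K r s E : ℕ} (hK : 5 ≤ K) (hr : r.Prime) (hs : s.Prime)
    (hr1 : K < r) (hr2 : r ≤ 2 * K) (hs1 : K < s) (hs2 : s ≤ 2 * K)
    (hE : E = s - 1 ∨ E = 2 * (s + 1)) : ¬ r ∣ E := by
  have hro : r % 2 = 1 := by
    rcases hr.eq_two_or_odd with h | h
    · omega
    · exact h
  have hso : s % 2 = 1 := by
    rcases hs.eq_two_or_odd with h | h
    · omega
    · exact h
  intro hd
  have key : ∀ c : ℕ, (c = s - 1 ∨ c = s + 1) → ¬ r ∣ c := by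
    intro c hc hdc
    obtain ⟨d, hd⟩ := hdc
    have hd0 : d ≠ 0 := by rintro rfl; omega
    have hd1 : d ≠ 1 := by rintro rfl; omega
    have : r * 2 ≤ r * d := Nat.mul_le_mul_left _ (by omega)
    omega
  rcases hE with h | h
  · exact key E (Or.inl h) hd
  · rw [h] at hd
    have hc : Nat.Coprime r 2 := (Nat.coprime_primes hr Nat.prime_two).2 (by omega)
    exact key (s + 1) (Or.inr rfl) (hc.dvd_of_dvd_mul_left hd)

theorem pair_bound (m : ℕ) (e : ℤ) (K : ℕ) (hK : 5 ≤ K) (hm0 : 1 ≤ m) (hm : m ≤ K)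
    (r s : ℕ) (hr : r.Prime) (hs : s.Prime) (hrs : r ≠ s)
    (hr1 : K < r) (hr2 : r ≤ 2 * K) (hs1 : K < s) (hs2 : s ≤ 2 * K) (N : ℕ) :
    ((∑ x ∈ range N, fr m e r x * fr m e s x : ℤ) : ℝ) ≤
      Real.sqrt (4 * (2 * K + 1) ^ 2 * N + 8 * (N : ℝ) ^ 2 / K ^ 2 + 8 * K ^ 2 * N) +
        4 * (2 * K + 1) ^ 2 := by
  have hfr := Fact.mk hr
  have hfs := Fact.mk hs
  obtain ⟨E₁, hE₁, hper₁⟩ := exists_period r hr (by omega)
  obtain ⟨E₂, hE₂, hper₂⟩ := exists_period s hs (by omega)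
  have hrm : ¬ r ∣ m := fun h => by have := Nat.le_of_dvd (by omega) h; omega
  have hsm : ¬ s ∣ m := fun h => by have := Nat.le_of_dvd (by omega) h; omega
  have hrE : ¬ r ∣ E₁ * E₂ := by
    intro h
    rcases (hr.dvd_mul).1 h with h | h
    · exact not_dvd_period hK hr hr hr1 hr2 hr1 hr2 hE₁ h
    · exact not_dvd_period hK hr hs hr1 hr2 hs1 hs2 hE₂ h
  have hsE : ¬ s ∣ E₁ * E₂ := by
    intro h
    rcases (hs.dvd_mul).1 h with h | h
    · exact not_dvd_period hK hs hr hs1 hs2 hr1 hr2 hE₁ h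
    · exact not_dvd_period hK hs hs hs1 hs2 hs1 hs2 hE₂ h
  have hiter₁ : ∀ t x, (Nat.fib (x + E₁ * t) : ZMod r) = Nat.fib x := by
    intro t
    induction t with
    | zero => intro x; simp
    | succ t ih => intro x; rw [mul_add, mul_one, ← add_assoc, hper₁, ih]
  have hiter₂ : ∀ t x, (Nat.fib (x + E₂ * t) : ZMod s) = Nat.fib x := by
    intro t
    induction t with
    | zero => intro x; simp
    | succ t ih => intro x; rw [mul_add, mul_one, ← add_assoc, hper₂, ih]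
  have h1 := T_bound' r s m e (by omega) (by omega) hrs hrm hsm (E₁ * E₂)
    (Nat.mul_pos (by omega) (by omega)) hrE hsE
    (fun x => quadraticChar (ZMod r) (Nat.fib x : ZMod r) *
      quadraticChar (ZMod s) (Nat.fib x : ZMod s))
    (by
      intro x
      have a1 := hiter₁ E₂ x
      have a2 := hiter₂ E₁ x
      rw [mul_comm E₂ E₁] at a2
      simp only [a1, a2])
    (by
      intro x
      rw [abs_mul]
      exact mul_le_one₀ (quadChar_abs_le r _) (abs_nonneg _) (quadChar_abs_le s _)) N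
  have h2 : ∑ x ∈ range N, fr m e r x * fr m e s x = ∑ x ∈ range N,
      (quadraticChar (ZMod r) (Nat.fib x : ZMod r) *
        quadraticChar (ZMod s) (Nat.fib x : ZMod s)) * (ch r m e x * ch s m e x) := by
    refine sum_congr rfl fun x _ => ?_
    rw [fr_eq, fr_eq]; ring
  rw [h2]
  refine (le_abs_self _).trans (h1.trans ?_)
  have hE₁' : (E₁ : ℝ) ≤ 2 * (2 * K + 1) := by
    have : E₁ ≤ 2 * (2 * K + 1) := by omega
    exact_mod_cast this
  have hE₂' : (E₂ : ℝ) ≤ 2 * (2 * K + 1) := by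
    have : E₂ ≤ 2 * (2 * K + 1) := by omega
    exact_mod_cast this
  have hE : ((E₁ * E₂ : ℕ) : ℝ) ≤ 4 * (2 * K + 1) ^ 2 := by
    push_cast
    calc (E₁ : ℝ) * E₂ ≤ (2 * (2 * K + 1)) * (2 * (2 * K + 1)) := by gcongr
      _ = _ := by ring
  have hKr : (K : ℝ) ≤ r := by exact_mod_cast hr1.le
  have hKs : (K : ℝ) ≤ s := by exact_mod_cast hs1.le
  have hrK : (r : ℝ) ≤ 2 * K := by exact_mod_cast hr2
  have hsK : (s : ℝ) ≤ 2 * K := by exact_mod_cast hs2
  have hK0 : (0 : ℝ) < K := by have : 0 < K := by omega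
                               exact_mod_cast this
  have hrs1 : (K : ℝ) ^ 2 ≤ r * s := by nlinarith
  have hrs2 : (r : ℝ) * s ≤ 4 * K ^ 2 := by nlinarith
  refine add_le_add (Real.sqrt_le_sqrt ?_) hE
  have hN0 : (0 : ℝ) ≤ N := by positivity
  have t1 : ((E₁ * E₂ : ℕ) : ℝ) * N ≤ 4 * (2 * K + 1) ^ 2 * N := by gcongr
  have t2 : 8 * (N : ℝ) ^ 2 / (r * s) ≤ 8 * (N : ℝ) ^ 2 / K ^ 2 := by gcongr
  have t3 : 2 * (N : ℝ) * (r * s) ≤ 8 * K ^ 2 * N := by nlinarith
  linarith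

theorem moment (m : ℕ) (e : ℤ) (K : ℕ) (hK : 5 ≤ K) (hm0 : 1 ≤ m) (hm : m ≤ K) (N : ℕ)
    (R A : Finset ℕ) (hR : ∀ r ∈ R, r.Prime ∧ K < r ∧ r ≤ 2 * K) (hA : A ⊆ range N)
    (h1 : ∀ p ∈ A, ∀ r ∈ R, fr m e r p = 1) :
    (A.card : ℝ) * R.card ≤ N + R.card *
      (Real.sqrt (4 * (2 * K + 1) ^ 2 * N + 8 * (N : ℝ) ^ 2 / K ^ 2 + 8 * K ^ 2 * N) +
        4 * (2 * K + 1) ^ 2) := by
  set B := (Real.sqrt (4 * (2 * K + 1) ^ 2 * N + 8 * (N : ℝ) ^ 2 / K ^ 2 + 8 * K ^ 2 * N) +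
        4 * (2 * K + 1) ^ 2) with hB
  have hB0 : 0 ≤ B := by positivity
  rcases R.eq_empty_or_nonempty with hRe | hRn
  · subst hRe; simp
  have hRc : (0 : ℝ) < R.card := by exact_mod_cast hRn.card_pos
  have hlow : ((A.card : ℝ)) * (R.card : ℝ) ^ 2 ≤
      ((∑ x ∈ range N, (∑ r ∈ R, fr m e r x) ^ 2 : ℤ) : ℝ) := by
    have : ((A.card : ℤ)) * (R.card : ℤ) ^ 2 ≤ ∑ x ∈ range N, (∑ r ∈ R, fr m e r x) ^ 2 := by
      calc ((A.card : ℤ)) * (R.card : ℤ) ^ 2 = ∑ x ∈ A, (R.card : ℤ) ^ 2 := by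
            rw [sum_const, nsmul_eq_mul]
        _ = ∑ x ∈ A, (∑ r ∈ R, fr m e r x) ^ 2 := by
            refine sum_congr rfl fun x hx => ?_
            rw [sum_congr rfl (h1 x hx)]; simp
        _ ≤ _ := sum_le_sum_of_subset_of_nonneg hA fun x _ _ => sq_nonneg _
    exact_mod_cast this
  have hup : ((∑ x ∈ range N, (∑ r ∈ R, fr m e r x) ^ 2 : ℤ) : ℝ) ≤
      R.card * N + R.card ^ 2 * B := by
    have e1 : ∑ x ∈ range N, (∑ r ∈ R, fr m e r x) ^ 2 =
        ∑ r ∈ R, ∑ s ∈ R, ∑ x ∈ range N, fr m e r x * fr m e s x := by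
      simp only [sq, sum_mul_sum]
      rw [sum_comm]
      refine sum_congr rfl fun r _ => ?_
      rw [sum_comm]
    rw [e1]
    push_cast
    have e2 : ∀ r ∈ R, ∑ s ∈ R, ∑ x ∈ range N, ((fr m e r x : ℤ) : ℝ) * (fr m e s x : ℝ) ≤
        N + R.card * B := by
      intro r hr
      have e3 : ∀ s ∈ R, ∑ x ∈ range N, ((fr m e r x : ℤ) : ℝ) * (fr m e s x : ℝ) ≤
          (if s = r then (N : ℝ) else 0) + B := by
        intro s hs
        split_ifs with hsr
        · have : ∑ x ∈ range N, ((fr m e r x : ℤ) : ℝ) * (fr m e s x : ℝ) ≤ N := by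
            calc _ ≤ ∑ x ∈ range N, (1 : ℝ) := by
                  refine sum_le_sum fun x _ => ?_
                  have hx := fr_abs_le m e r x
                  have hy := fr_abs_le m e s x
                  have hxy : |fr m e r x * fr m e s x| ≤ 1 := by
                    rw [abs_mul]; exact mul_le_one₀ hx (abs_nonneg _) hy
                  have := (le_abs_self _).trans hxy
                  exact_mod_cast this
              _ = N := by simp
          linarith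
        · rw [zero_add]
          obtain ⟨a1, a2, a3⟩ := hR r hr
          obtain ⟨b1, b2, b3⟩ := hR s hs
          have := pair_bound m e K hK hm0 hm r s a1 b1 (Ne.symm hsr) a2 a3 b2 b3 N
          push_cast at this
          exact this
      refine (sum_le_sum e3).trans (le_of_eq ?_)
      rw [sum_add_distrib, sum_ite_eq' R r, if_pos hr, sum_const, nsmul_eq_mul]
    refine (sum_le_sum e2).trans (le_of_eq ?_)
    rw [sum_const, nsmul_eq_mul]; ring
  have h3 := hlow.trans hup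
  have h4 : (R.card : ℝ) * ((A.card : ℝ) * R.card) ≤ R.card * (N + R.card * B) := by
    nlinarith
  exact le_of_mul_le_mul_left h4 hRc

end Pool.FS83
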