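import Pool.Agent.FS83.Moment

/-! The square sieve for `(m₁ x + e₁) (m₂ x + e₂) F_x`. -/

set_option autoImplicit false

namespace Pool.FS83

open Finset

/-- abstract second moment inequality -/
theorem moment_abs (f : ℕ → ℕ → ℤ) (hf : ∀ r x, |f r x| ≤ 1) (N : ℕ) (R A : Finset ℕ)
    (hA : A ⊆ range N) (h1 : ∀ p ∈ A, ∀ r ∈ R, f r p = 1) (B : ℝ) (hB0 : 0 ≤ B)
    (hB : ∀ r ∈ R, ∀ s ∈ R, r ≠ s → ((∑ x ∈ range N, f r x * f s x : ℤ) : ℝ) ≤ B) :
    (A.card : ℝ) * R.card ≤ N + R.card * B := by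
  rcases R.eq_empty_or_nonempty with hRe | hRn
  · subst hRe; simp
  have hRc : (0 : ℝ) < R.card := by exact_mod_cast hRn.card_pos
  have hlow : ((A.card : ℝ)) * (R.card : ℝ) ^ 2 ≤
      ((∑ x ∈ range N, (∑ r ∈ R, f r x) ^ 2 : ℤ) : ℝ) := by
    have : ((A.card : ℤ)) * (R.card : ℤ) ^ 2 ≤ ∑ x ∈ range N, (∑ r ∈ R, f r x) ^ 2 := by
      calc ((A.card : ℤ)) * (R.card : ℤ) ^ 2 = ∑ x ∈ A, (R.card : ℤ) ^ 2 := by
            rw [sum_const, nsmul_eq_mul]
        _ = ∑ x ∈ A, (∑ r ∈ R, f r x) ^ 2 := by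
            refine sum_congr rfl fun x hx => ?_
            rw [sum_congr rfl (h1 x hx)]; simp
        _ ≤ _ := sum_le_sum_of_subset_of_nonneg hA fun x _ _ => sq_nonneg _
    exact_mod_cast this
  have hup : ((∑ x ∈ range N, (∑ r ∈ R, f r x) ^ 2 : ℤ) : ℝ) ≤
      R.card * N + R.card ^ 2 * B := by
    have e1 : ∑ x ∈ range N, (∑ r ∈ R, f r x) ^ 2 =
        ∑ r ∈ R, ∑ s ∈ R, ∑ x ∈ range N, f r x * f s x := by
      simp only [sq, sum_mul_sum]
      rw [sum_comm]
      refine sum_congr rfl fun r _ => ?_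
      rw [sum_comm]
    rw [e1]
    push_cast
    have e2 : ∀ r ∈ R, ∑ s ∈ R, ∑ x ∈ range N, ((f r x : ℤ) : ℝ) * (f s x : ℝ) ≤
        N + R.card * B := by
      intro r hr
      have e3 : ∀ s ∈ R, ∑ x ∈ range N, ((f r x : ℤ) : ℝ) * (f s x : ℝ) ≤
          (if s = r then (N : ℝ) else 0) + B := by
        intro s hs
        split_ifs with hsr
        · have : ∑ x ∈ range N, ((f r x : ℤ) : ℝ) * (f s x : ℝ) ≤ N := by
            calc _ ≤ ∑ x ∈ range N, (1 : ℝ) := by
                  refine sum_le_sum fun x _ => ?_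
                  have hxy : |f r x * f s x| ≤ 1 := by
                    rw [abs_mul]; exact mul_le_one₀ (hf r x) (abs_nonneg _) (hf s x)
                  have := (le_abs_self _).trans hxy
                  exact_mod_cast this
              _ = N := by simp
          linarith
        · rw [zero_add]
          have := hB r hr s hs (Ne.symm hsr)
          push_cast at this
          exact this
      refine (sum_le_sum e3).trans (le_of_eq ?_)
      rw [sum_add_distrib, sum_ite_eq' R r, if_pos hr, sum_const, nsmul_eq_mul]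
    refine (sum_le_sum e2).trans (le_of_eq ?_)
    rw [sum_const, nsmul_eq_mul]; ring
  have h3 := hlow.trans hup
  have h4 : (R.card : ℝ) * ((A.card : ℝ) * R.card) ≤ R.card * (N + R.card * B) := by
    nlinarith
  exact le_of_mul_le_mul_left h4 hRc

/-- product of periodic functions with coprime periods -/
theorem sum_crt_per (P Q : ℕ) (hP : 0 < P) (hQ : 0 < Q) (h : Nat.Coprime P Q) (u v : ℕ → ℤ)
    (hu : ∀ x, u (x + P) = u x) (hv : ∀ x, v (x + Q) = v x) :
    ∑ x ∈ range (P * Q), u x * v x = (∑ x ∈ range P, u x) * ∑ x ∈ range Q, v x := by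
  have hPne : NeZero P := ⟨hP.ne'⟩
  have hQne : NeZero Q := ⟨hQ.ne'⟩
  have hmod : ∀ (w : ℕ → ℤ) (S : ℕ), (∀ x, w (x + S) = w x) → ∀ x, w (x % S) = w x := by
    intro w S hw x
    have : ∀ t a, w (a + S * t) = w a := by
      intro t
      induction t with
      | zero => intro a; simp
      | succ t ih => intro a; rw [mul_add, mul_one, ← add_assoc, hw, ih]
    conv_rhs => rw [← Nat.mod_add_div x S, this]
  have h1 := sum_crt P Q h (fun z => u z.val) (fun z => v z.val)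
  have h2 : ∑ x ∈ range (P * Q), u x * v x =
      ∑ x ∈ range (P * Q), u (x : ZMod P).val * v (x : ZMod Q).val := by
    refine sum_congr rfl fun x _ => ?_
    rw [ZMod.val_natCast, ZMod.val_natCast, hmod u P hu, hmod v Q hv]
  rw [h2, h1, ← sum_range_zmod P (fun z => u z.val), ← sum_range_zmod Q (fun z => v z.val)]
  congr 1
  · refine sum_congr rfl fun x hx => ?_
    rw [ZMod.val_natCast, hmod u P hu]
  · refine sum_congr rfl fun x hx => ?_
    rw [ZMod.val_natCast, hmod v Q hv]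

/-- complete sum of a product of two different linear factors -/
theorem sum_two_lin (r : ℕ) [Fact r.Prime] (h2 : r ≠ 2) (a b c d : ZMod r) (ha : a ≠ 0)
    (hb : b ≠ 0) (hd : a * d ≠ b * c) :
    |∑ z : ZMod r, quadraticChar (ZMod r) (a * z + c) * quadraticChar (ZMod r) (b * z + d)| ≤
      1 := by
  have h1 : ∑ z : ZMod r, quadraticChar (ZMod r) (a * z + c) *
      quadraticChar (ZMod r) (b * z + d) = (quadraticChar (ZMod r) (a * b)) *
      ∑ y : ZMod r, quadraticChar (ZMod r) y *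
        quadraticChar (ZMod r) (y + (d * b⁻¹ - c * a⁻¹)) := by
    rw [mul_sum]
    refine Fintype.sum_bijective (fun z => z + c * a⁻¹) (Equiv.addRight _).bijective _ _ ?_
    intro z
    have e1 : a * z + c = a * (z + c * a⁻¹) := by field_simp
    have e2 : b * z + d = b * (z + c * a⁻¹ + (d * b⁻¹ - c * a⁻¹)) := by field_simp; ring
    rw [e1, e2, map_mul, map_mul, map_mul]; ring
  rw [h1, sum_quad r h2, if_neg, abs_mul]
  · have := quadChar_abs_le r (a * b)
    simpa using this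
  · intro h0
    apply hd
    have h3 : d * b⁻¹ = c * a⁻¹ := sub_eq_zero.1 h0
    field_simp at h3
    linear_combination h3

noncomputable def fr2 (m₁ : ℕ) (e₁ : ℤ) (m₂ : ℕ) (e₂ : ℤ) (r x : ℕ) : ℤ :=
  if h : r.Prime then (@ch r ⟨h⟩ m₁ e₁ x) * (@ch r ⟨h⟩ m₂ e₂ x) * (@chF r ⟨h⟩ x) else 0

theorem fr2_eq (m₁ : ℕ) (e₁ : ℤ) (m₂ : ℕ) (e₂ : ℤ) (r x : ℕ) [hf : Fact r.Prime] :
    fr2 m₁ e₁ m₂ e₂ r x = ch r m₁ e₁ x * ch r m₂ e₂ x *
      quadraticChar (ZMod r) (Nat.fib x : ZMod r) := by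
  unfold fr2
  rw [dif_pos hf.out]
  rfl

theorem fr2_abs_le (m₁ : ℕ) (e₁ : ℤ) (m₂ : ℕ) (e₂ : ℤ) (r x : ℕ) :
    |fr2 m₁ e₁ m₂ e₂ r x| ≤ 1 := by
  by_cases h : r.Prime
  · have := Fact.mk h
    rw [fr2_eq, abs_mul, abs_mul]
    exact mul_le_one₀ (mul_le_one₀ (ch_abs_le r _ _ x) (abs_nonneg _) (ch_abs_le r _ _ x))
      (abs_nonneg _) (quadChar_abs_le r _)
  · unfold fr2; rw [dif_neg h]; simp

theorem fr2_eq_one (m₁ : ℕ) (e₁ : ℤ) (m₂ : ℕ) (e₂ : ℤ) (p k r : ℕ) (hr : r.Prime)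
    (hp : (Nat.fib p : ℤ) = (m₁ * p + e₁) * (m₂ * p + e₂) * k ^ 2)
    (hrp : ¬ r ∣ Nat.fib p) : fr2 m₁ e₁ m₂ e₂ r p = 1 := by
  have hf := Fact.mk hr
  rw [fr2_eq]
  have h0 : (Nat.fib p : ZMod r) ≠ 0 := by rwa [Ne, ZMod.natCast_eq_zero_iff]
  have h1 : (Nat.fib p : ZMod r) = ((m₁ : ZMod r) * p + e₁) * ((m₂ : ZMod r) * p + e₂) *
      (k : ZMod r) ^ 2 := by
    have := congrArg (Int.cast : ℤ → ZMod r) hp
    push_cast at this
    exact this
  have h2 : ((m₁ : ZMod r) * p + e₁) * ((m₂ : ZMod r) * p + e₂) ≠ 0 := by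
    intro h; rw [h, zero_mul] at h1; exact h0 h1
  have h3 : (k : ZMod r) ≠ 0 := by
    intro h; rw [h] at h1; simp at h1; exact h0 h1
  rw [h1, map_mul, map_pow, quadraticChar_sq_one h3, mul_one, map_mul]
  unfold ch
  rw [← sq, ← map_mul, quadraticChar_sq_one h2]

theorem pair_bound2 (m₁ : ℕ) (e₁ : ℤ) (m₂ : ℕ) (e₂ : ℤ) (K : ℕ) (hK : 5 ≤ K)
    (hm₁0 : 1 ≤ m₁) (hm₁ : m₁ ≤ K) (hm₂0 : 1 ≤ m₂) (hm₂ : m₂ ≤ K)
    (hdisc0 : (m₁ : ℤ) * e₂ - m₂ * e₁ ≠ 0) (hdisc : |(m₁ : ℤ) * e₂ - m₂ * e₁| ≤ K)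
    (r s : ℕ) (hr : r.Prime) (hs : s.Prime) (hrs : r ≠ s)
    (hr1 : K < r) (hr2 : r ≤ 2 * K) (hs1 : K < s) (hs2 : s ≤ 2 * K) (N : ℕ) :
    ((∑ x ∈ range N, fr2 m₁ e₁ m₂ e₂ r x * fr2 m₁ e₁ m₂ e₂ s x : ℤ) : ℝ) ≤
      N / K ^ 2 + 16 * K ^ 2 * (2 * K + 1) ^ 2 := by
  have hfr := Fact.mk hr
  have hfs := Fact.mk hs
  obtain ⟨E₁, hE₁, hper₁⟩ := exists_period r hr (by omega)
  obtain ⟨E₂, hE₂, hper₂⟩ := exists_period s hs (by omega)
  have hrE : ¬ r ∣ E₁ * E₂ := by
    intro h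
    rcases (hr.dvd_mul).1 h with h | h
    · exact not_dvd_period hK hr hr hr1 hr2 hr1 hr2 hE₁ h
    · exact not_dvd_period hK hr hs hr1 hr2 hs1 hs2 hE₂ h
  have hsE : ¬ s ∣ E₁ * E₂ := by
    intro h
    rcases (hs.dvd_mul).1 h with h | h
    · exact not_dvd_period hK hs hr hs1 hs2 hr1 hr2 hE₁ h
    · exact not_dvd_period hK hs hs hs1 hs2 hs1 hs2 hE₂ h
  have hiter₁ : ∀ t x, (Nat.fib (x + E₁ * t) : ZMod r) = Nat.fib x := by
    intro t
    induction t with
    | zero => intro x; simp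
    | succ t ih => intro x; rw [mul_add, mul_one, ← add_assoc, hper₁, ih]
  have hiter₂ : ∀ t x, (Nat.fib (x + E₂ * t) : ZMod s) = Nat.fib x := by
    intro t
    induction t with
    | zero => intro x; simp
    | succ t ih => intro x; rw [mul_add, mul_one, ← add_assoc, hper₂, ih]
  set E := E₁ * E₂ with hEdef
  have hE0 : 0 < E := Nat.mul_pos (by omega) (by omega)
  set g : ℕ → ℤ := fun x => quadraticChar (ZMod r) (Nat.fib x : ZMod r) *
      quadraticChar (ZMod s) (Nat.fib x : ZMod s) with hg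
  have hgper : ∀ x, g (x + E) = g x := by
    intro x
    have a1 := hiter₁ E₂ x
    have a2 := hiter₂ E₁ x
    rw [mul_comm E₂ E₁] at a2
    rw [← hEdef] at a1 a2
    simp only [hg, a1, a2]
  have hg1 : ∀ x, |g x| ≤ 1 := by
    intro x
    simp only [hg, abs_mul]
    exact mul_le_one₀ (quadChar_abs_le r _) (abs_nonneg _) (quadChar_abs_le s _)
  set ur : ℕ → ℤ := fun x => ch r m₁ e₁ x * ch r m₂ e₂ x with hur
  set us : ℕ → ℤ := fun x => ch s m₁ e₁ x * ch s m₂ e₂ x with hus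
  have hchper : ∀ (q : ℕ) [Fact q.Prime] (m : ℕ) (e : ℤ) (x : ℕ),
      ch q m e (x + q) = ch q m e x := by
    intro q _ m e x
    unfold ch
    push_cast
    rw [ZMod.natCast_self]; ring_nf
  have hurper : ∀ x, ur (x + r) = ur x := by
    intro x; simp only [hur]; rw [hchper r, hchper r]
  have husper : ∀ x, us (x + s) = us x := by
    intro x; simp only [hus]; rw [hchper s, hchper s]
  have hur1 : ∀ x, |ur x| ≤ 1 := by
    intro x; simp only [hur, abs_mul]
    exact mul_le_one₀ (ch_abs_le r _ _ x) (abs_nonneg _) (ch_abs_le r _ _ x)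
  have hus1 : ∀ x, |us x| ≤ 1 := by
    intro x; simp only [hus, abs_mul]
    exact mul_le_one₀ (ch_abs_le s _ _ x) (abs_nonneg _) (ch_abs_le s _ _ x)
  have hcop : Nat.Coprime r s := (Nat.coprime_primes hr hs).2 hrs
  have hcopE : Nat.Coprime (r * s) E :=
    Nat.Coprime.mul_left ((Nat.Prime.coprime_iff_not_dvd hr).2 hrE)
      ((Nat.Prime.coprime_iff_not_dvd hs).2 hsE)
  set w : ℕ → ℤ := fun x => ur x * us x with hw
  have hwper : ∀ x, w (x + r * s) = w x := by
    intro x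
    have a : ∀ t x, ur (x + r * t) = ur x := by
      intro t
      induction t with
      | zero => intro x; simp
      | succ t ih => intro x; rw [mul_add, mul_one, ← add_assoc, hurper, ih]
    have b : ∀ t x, us (x + s * t) = us x := by
      intro t
      induction t with
      | zero => intro x; simp
      | succ t ih => intro x; rw [mul_add, mul_one, ← add_assoc, husper, ih]
    have a' := a s x
    have b' := b r x
    rw [mul_comm s r] at b'
    simp only [hw, a', b']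
  have hw1 : ∀ x, |w x| ≤ 1 := by
    intro x; simp only [hw, abs_mul]
    exact mul_le_one₀ (hur1 x) (abs_nonneg _) (hus1 x)
  -- complete sum
  have hcompw : |∑ x ∈ range (r * s), w x| ≤ 1 := by
    have h1 := sum_crt_per r s hr.pos hs.pos hcop ur us hurper husper
    have h2 : ∀ (q : ℕ) [Fact q.Prime], K < q → q ≤ 2 * K →
        |∑ x ∈ range q, ch q m₁ e₁ x * ch q m₂ e₂ x| ≤ 1 := by
      intro q _ hq1 hq2
      have hq : q.Prime := Fact.out
      have hqne : NeZero q := ⟨hq.ne_zero⟩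
      have h3 := sum_range_zmod q (fun z => quadraticChar (ZMod q) ((m₁ : ZMod q) * z + e₁) *
        quadraticChar (ZMod q) ((m₂ : ZMod q) * z + e₂))
      have h4 : ∑ x ∈ range q, ch q m₁ e₁ x * ch q m₂ e₂ x =
          ∑ z : ZMod q, quadraticChar (ZMod q) ((m₁ : ZMod q) * z + e₁) *
            quadraticChar (ZMod q) ((m₂ : ZMod q) * z + e₂) := h3
      rw [h4]
      refine sum_two_lin q (by omega) _ _ _ _ ?_ ?_ ?_
      · rw [Ne, ZMod.natCast_eq_zero_iff]
        intro h; have := Nat.le_of_dvd (by omega) h; omega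
      · rw [Ne, ZMod.natCast_eq_zero_iff]
        intro h; have := Nat.le_of_dvd (by omega) h; omega
      · intro h
        have h5 : (((m₁ : ℤ) * e₂ - m₂ * e₁ : ℤ) : ZMod q) = 0 := by
          push_cast; rw [h]; ring
        rw [ZMod.intCast_zmod_eq_zero_iff_dvd] at h5
        have h6 := Int.le_of_dvd (abs_pos.2 hdisc0) ((dvd_abs _ _).2 h5)
        omega
    rw [show ∑ x ∈ range (r * s), w x = (∑ x ∈ range r, ur x) * ∑ x ∈ range s, us x from h1,
      abs_mul]
    exact mul_le_one₀ (h2 r hr1 hr2) (abs_nonneg _) (h2 s hs1 hs2)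
  have hcomp : |∑ x ∈ range (r * s * E), w x * g x| ≤ E := by
    rw [sum_crt_per (r * s) E (Nat.mul_pos hr.pos hs.pos) hE0 hcopE w g hwper hgper, abs_mul]
    have h1 : |∑ x ∈ range E, g x| ≤ E := by
      refine (abs_sum_le_sum_abs _ _).trans ?_
      calc ∑ x ∈ range E, |g x| ≤ ∑ x ∈ range E, 1 := sum_le_sum fun x _ => hg1 x
        _ = E := by simp
    calc |∑ x ∈ range (r * s), w x| * |∑ x ∈ range E, g x| ≤ 1 * E :=
          mul_le_mul hcompw h1 (abs_nonneg _) (by norm_num)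
      _ = E := one_mul _
  have hmain := periodic_sum_bound (fun x => w x * g x) (r * s * E)
    (Nat.mul_pos (Nat.mul_pos hr.pos hs.pos) hE0) (by
      intro x
      have a : ∀ t x, w (x + r * s * t) = w x := by
        intro t
        induction t with
        | zero => intro x; simp
        | succ t ih => intro x; rw [mul_add, mul_one, ← add_assoc, hwper, ih]
      have b : ∀ t x, g (x + E * t) = g x := by
        intro t
        induction t with
        | zero => intro x; simp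
        | succ t ih => intro x; rw [mul_add, mul_one, ← add_assoc, hgper, ih]
      have a' := a E x
      have b' := b (r * s) x
      rw [mul_comm E (r * s)] at b'
      simp only [a', b']) (by
      intro x
      simp only [abs_mul]
      exact mul_le_one₀ (hw1 x) (abs_nonneg _) (hg1 x)) N
  have hsum : ∑ x ∈ range N, fr2 m₁ e₁ m₂ e₂ r x * fr2 m₁ e₁ m₂ e₂ s x =
      ∑ x ∈ range N, w x * g x := by
    refine sum_congr rfl fun x _ => ?_
    rw [fr2_eq, fr2_eq]
    simp only [hw, hg, hur, hus]; ring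
  rw [hsum]
  have h1 : ∑ x ∈ range N, w x * g x ≤ ((N / (r * s * E) : ℕ) : ℤ) * E + (r * s * E : ℕ) := by
    refine (le_abs_self _).trans (hmain.trans ?_)
    have : (0 : ℤ) ≤ ((N / (r * s * E) : ℕ) : ℤ) := by positivity
    have := mul_le_mul_of_nonneg_left hcomp this
    linarith
  have h2 : ((∑ x ∈ range N, w x * g x : ℤ) : ℝ) ≤
      ((N / (r * s * E) : ℕ) : ℝ) * E + ((r * s * E : ℕ) : ℝ) := by
    have := (Int.cast_le (R := ℝ)).2 h1
    rw [Int.cast_add, Int.cast_mul, Int.cast_natCast, Int.cast_natCast, Int.cast_natCast] at this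
    exact this
  refine h2.trans ?_
  have hE₁' : (E₁ : ℝ) ≤ 2 * (2 * K + 1) := by
    have : E₁ ≤ 2 * (2 * K + 1) := by omega
    exact_mod_cast this
  have hE₂' : (E₂ : ℝ) ≤ 2 * (2 * K + 1) := by
    have : E₂ ≤ 2 * (2 * K + 1) := by omega
    exact_mod_cast this
  have hE : (E : ℝ) ≤ 4 * (2 * K + 1) ^ 2 := by
    rw [hEdef]
    push_cast
    calc (E₁ : ℝ) * E₂ ≤ (2 * (2 * K + 1)) * (2 * (2 * K + 1)) := by gcongr
      _ = _ := by ring
  have hKr : (K : ℝ) ≤ r := by exact_mod_cast hr1.le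
  have hKs : (K : ℝ) ≤ s := by exact_mod_cast hs1.le
  have hrK : (r : ℝ) ≤ 2 * K := by exact_mod_cast hr2
  have hsK : (s : ℝ) ≤ 2 * K := by exact_mod_cast hs2
  have hK0 : (0 : ℝ) < K := by have : 0 < K := by omega
                               exact_mod_cast this
  have hrs1 : (K : ℝ) ^ 2 ≤ r * s := by nlinarith
  have hrs2 : (r : ℝ) * s ≤ 4 * K ^ 2 := by nlinarith
  have hE0' : (0 : ℝ) < E := by exact_mod_cast hE0
  have hN0 : (0 : ℝ) ≤ N := by positivity
  have hfl : ((N / (r * s * E) : ℕ) : ℝ) * E ≤ N / K ^ 2 := by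
    have a1 : ((N / (r * s * E) : ℕ) : ℝ) ≤ (N : ℝ) / ((r * s * E : ℕ) : ℝ) := Nat.cast_div_le
    calc ((N / (r * s * E) : ℕ) : ℝ) * E ≤ (N : ℝ) / ((r * s * E : ℕ) : ℝ) * E := by gcongr
      _ = (N : ℝ) / (r * s) := by push_cast; field_simp
      _ ≤ N / K ^ 2 := by gcongr
  have hlast : ((r * s * E : ℕ) : ℝ) ≤ 16 * K ^ 2 * (2 * K + 1) ^ 2 := by
    push_cast
    calc (r : ℝ) * s * E ≤ 4 * K ^ 2 * (4 * (2 * K + 1) ^ 2) := by gcongr
      _ = _ := by ring
  linarith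

end Pool.FS83
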