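import Mathlib

/-! Sums of periodic functions and complete quadratic character sums. -/

set_option autoImplicit false

namespace Pool.FS83

open Finset

theorem sum_range_mul_add (u : ℕ → ℤ) (Q : ℕ) (hper : ∀ x, u (x + Q) = u x) (t ρ : ℕ) :
    ∑ x ∈ range (Q * t + ρ), u x = t * ∑ x ∈ range Q, u x + ∑ x ∈ range ρ, u x := by
  induction t with
  | zero => simp
  | succ t ih =>
    rw [show Q * (t + 1) + ρ = Q + (Q * t + ρ) by ring, sum_range_add]
    have : ∑ x ∈ range (Q * t + ρ), u (Q + x) = ∑ x ∈ range (Q * t + ρ), u x :=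
      sum_congr rfl fun x _ => by rw [add_comm, hper]
    rw [this, ih]
    push_cast; ring

theorem periodic_sum_bound (u : ℕ → ℤ) (Q : ℕ) (hQ : 0 < Q) (hper : ∀ x, u (x + Q) = u x)
    (hb : ∀ x, |u x| ≤ 1) (N : ℕ) :
    |∑ x ∈ range N, u x| ≤ ((N / Q : ℕ) : ℤ) * |∑ x ∈ range Q, u x| + Q := by
  have h1 := sum_range_mul_add u Q hper (N / Q) (N % Q)
  rw [Nat.div_add_mod] at h1
  rw [h1]
  refine (abs_add_le _ _).trans ?_
  rw [abs_mul, abs_of_nonneg (by positivity : (0 : ℤ) ≤ ((N / Q : ℕ) : ℤ))]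
  have h2 : |∑ x ∈ range (N % Q), u x| ≤ Q := by
    calc |∑ x ∈ range (N % Q), u x| ≤ ∑ x ∈ range (N % Q), |u x| := abs_sum_le_sum_abs _ _
      _ ≤ ∑ x ∈ range (N % Q), 1 := sum_le_sum fun x _ => hb x
      _ = (N % Q : ℕ) := by simp
      _ ≤ Q := by exact_mod_cast (Nat.mod_lt N hQ).le
  linarith

theorem sum_range_zmod (n : ℕ) [NeZero n] (U : ZMod n → ℤ) :
    ∑ x ∈ range n, U (x : ZMod n) = ∑ z : ZMod n, U z := by
  refine sum_nbij' (fun x => (x : ZMod n)) (fun z => z.val) ?_ ?_ ?_ ?_ ?_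
  · intro x _; exact mem_univ _
  · intro z _; exact mem_range.2 (ZMod.val_lt z)
  · intro x hx; exact ZMod.val_cast_of_lt (mem_range.1 hx)
  · intro z _; exact ZMod.natCast_zmod_val z
  · intro x _; rfl

theorem sum_crt (r s : ℕ) [NeZero r] [NeZero s] (h : Nat.Coprime r s) (U : ZMod r → ℤ)
    (V : ZMod s → ℤ) :
    ∑ x ∈ range (r * s), U (x : ZMod r) * V (x : ZMod s) = (∑ z, U z) * ∑ z, V z := by
  have hne : NeZero (r * s) := ⟨mul_ne_zero (NeZero.ne r) (NeZero.ne s)⟩
  have h1 : ∑ x ∈ range (r * s), U (x : ZMod r) * V (x : ZMod s) =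
      ∑ x ∈ range (r * s), (fun z : ZMod (r * s) => U (ZMod.chineseRemainder h z).1 *
        V (ZMod.chineseRemainder h z).2) (x : ZMod (r * s)) := by
    refine sum_congr rfl fun x _ => ?_
    simp only [map_natCast, Prod.fst_natCast, Prod.snd_natCast]
  rw [h1]
  refine (sum_range_zmod (r * s) (fun z : ZMod (r * s) => U (ZMod.chineseRemainder h z).1 *
        V (ZMod.chineseRemainder h z).2)).trans ?_
  have h2 : ∑ z : ZMod (r * s), U (ZMod.chineseRemainder h z).1 *
        V (ZMod.chineseRemainder h z).2 = ∑ w : ZMod r × ZMod s, U w.1 * V w.2 :=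
    Fintype.sum_equiv (ZMod.chineseRemainder h).toEquiv _
      (fun w : ZMod r × ZMod s => U w.1 * V w.2) (fun z => rfl)
  rw [h2, Fintype.sum_prod_type, sum_mul_sum]

variable (r : ℕ) [Fact r.Prime]

/-- complete sum of `χ (y (y + c))`. -/
theorem sum_quad (h2 : r ≠ 2) (c : ZMod r) :
    ∑ y : ZMod r, quadraticChar (ZMod r) y * quadraticChar (ZMod r) (y + c) =
      if c = 0 then (r : ℤ) - 1 else -1 := by
  have hchar : ringChar (ZMod r) ≠ 2 := by rwa [ZMod.ringChar_zmod_n]
  split_ifs with hc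
  · subst hc
    simp only [add_zero]
    have h1 : ∀ y : ZMod r, quadraticChar (ZMod r) y * quadraticChar (ZMod r) y =
        if y = 0 then 0 else 1 := by
      intro y
      split_ifs with hy
      · rw [hy, quadraticChar_zero, zero_mul]
      · rw [← sq, quadraticChar_sq_one hy]
    simp only [h1]
    rw [sum_ite, sum_const_zero, zero_add, sum_const, nsmul_eq_mul, mul_one]
    have : (univ.filter fun y : ZMod r => ¬ y = 0).card = r - 1 := by
      rw [filter_not, card_sdiff_of_subset (filter_subset _ _)]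
      simp [ZMod.card, filter_eq']
    rw [this, Nat.cast_sub (Fact.out : r.Prime).one_le]; simp
  · -- split off `y = 0`, invert
    have h1 : ∑ y : ZMod r, quadraticChar (ZMod r) y * quadraticChar (ZMod r) (y + c) =
        ∑ y : ZMod r, (if y = 0 then 0 else quadraticChar (ZMod r) (1 + c * y⁻¹)) := by
      refine sum_congr rfl fun y _ => ?_
      split_ifs with hy
      · rw [hy, quadraticChar_zero, zero_mul]
      · have e : y + c = y * (1 + c * y⁻¹) := by field_simp
        rw [e, map_mul, ← mul_assoc, ← sq, quadraticChar_sq_one hy, one_mul]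
    have h2 : ∑ y : ZMod r, (if y = 0 then 0 else quadraticChar (ZMod r) (1 + c * y⁻¹)) =
        ∑ z : ZMod r, (if z = 0 then 0 else quadraticChar (ZMod r) (1 + c * z)) := by
      refine Fintype.sum_equiv (Equiv.inv (ZMod r)) _ _ fun y => ?_
      simp [inv_eq_zero]
    have h3 : ∑ z : ZMod r, (if z = 0 then 0 else quadraticChar (ZMod r) (1 + c * z)) =
        ∑ z : ZMod r, quadraticChar (ZMod r) (1 + c * z) - 1 := by
      have : ∀ z : ZMod r, (if z = 0 then 0 else quadraticChar (ZMod r) (1 + c * z)) =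
          quadraticChar (ZMod r) (1 + c * z) - (if z = 0 then 1 else 0) := by
        intro z
        split_ifs with hz
        · rw [hz, mul_zero, add_zero, map_one, sub_self]
        · rw [sub_zero]
      simp only [this]
      rw [sum_sub_distrib, sum_ite_eq']
      simp
    have h4 : ∑ z : ZMod r, quadraticChar (ZMod r) (1 + c * z) = 0 := by
      rw [← quadraticChar_sum_zero hchar]
      refine Fintype.sum_bijective (fun z => 1 + c * z) ?_ _ _ fun z => rfl
      exact ((Equiv.mulLeft₀ c hc).trans (Equiv.addLeft 1)).bijective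
    rw [h1, h2, h3, h4]; ring

/-- complete sum with a linear substitution -/
theorem sum_quad_lin (h2 : r ≠ 2) (α β c : ZMod r) (hα : α ≠ 0) :
    ∑ z : ZMod r, quadraticChar (ZMod r) (α * z + β) * quadraticChar (ZMod r) (α * z + β + c) =
      if c = 0 then (r : ℤ) - 1 else -1 := by
  rw [← sum_quad r h2 c]
  refine Fintype.sum_bijective (fun z => α * z + β) ?_ _ _ fun z => rfl
  exact ((Equiv.mulLeft₀ α hα).trans (Equiv.addRight β)).bijective

end Pool.FS83
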