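import Pool.Agent.FS83.Corr
import Pool.Agent.FS83.Basic

/-! The bound for one pair of primes. -/

set_option autoImplicit false

namespace Pool.FS83

open Finset

section
variable (r s : ℕ) [Fact r.Prime] [Fact s.Prime] (m : ℕ) (e : ℤ)

theorem T_bound (hr2 : r ≠ 2) (hs2 : s ≠ 2) (hrs : r ≠ s) (hrm : ¬ r ∣ m) (hsm : ¬ s ∣ m)
    (E : ℕ) (hrE : ¬ r ∣ E) (hsE : ¬ s ∣ E) (g : ℕ → ℤ)
    (hg : ∀ x, g (x + E) = g x) (hg1 : ∀ x, |g x| ≤ 1) (J : ℕ) :
    ((∑ x ∈ range (E * J), g x * (ch r m e x * ch s m e x) : ℤ) : ℝ) ^ 2 ≤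
      E * (E * J) + 8 * ((E : ℝ) * J) ^ 2 / (r * s) + 2 * (E * J) * (r * s) := by
  have hr : r.Prime := Fact.out
  have hs : s.Prime := Fact.out
  set A : ℕ → ℤ := fun x => ch r m e x * ch s m e x with hA
  have hA1 : ∀ x, |A x| ≤ 1 := by
    intro x
    rw [hA]
    simp only [abs_mul]
    exact mul_le_one₀ (ch_abs_le r m e x) (abs_nonneg _) (ch_abs_le s m e x)
  have hAsq : ∀ x, A x * A x ≤ 1 := by
    intro x
    have := hA1 x
    rw [← abs_mul_abs_self]
    exact mul_le_one₀ this (abs_nonneg _) this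
  have hgper : ∀ t a, g (a + E * t) = g a := by
    intro t
    induction t with
    | zero => intro a; simp
    | succ t ih => intro a; rw [mul_add, mul_one, ← add_assoc, hg, ih]
  -- Cauchy-Schwarz
  have h1 : ∑ x ∈ range (E * J), g x * A x =
      ∑ a ∈ range E, g a * ∑ t ∈ range J, A (a + E * t) := by
    rw [sum_range_mul_split (fun x => g x * A x) E J, sum_comm]
    refine sum_congr rfl fun a _ => ?_
    rw [mul_sum]
    exact sum_congr rfl fun t _ => by rw [hgper]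
  have h2 : (∑ x ∈ range (E * J), g x * A x) ^ 2 ≤
      E * ∑ a ∈ range E, (∑ t ∈ range J, A (a + E * t)) ^ 2 := by
    rw [h1]
    refine (sum_mul_sq_le_sq_mul_sq _ _ _).trans ?_
    refine mul_le_mul_of_nonneg_right ?_ (sum_nonneg fun a _ => sq_nonneg _)
    calc ∑ a ∈ range E, g a ^ 2 ≤ ∑ a ∈ range E, 1 := by
          refine sum_le_sum fun a _ => ?_
          rw [← sq_abs]
          exact pow_le_one₀ (abs_nonneg _) (hg1 a)
      _ = E := by simp
  have h3 : ∑ a ∈ range E, (∑ t ∈ range J, A (a + E * t)) ^ 2 =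
      ∑ t ∈ range J, ∑ a ∈ range E, A (a + E * t) * A (a + E * t) +
      2 * ∑ i ∈ Ico 1 J, ∑ x ∈ range (E * (J - i)), A x * A (x + E * i) := by
    have e1 : ∑ a ∈ range E, (∑ t ∈ range J, A (a + E * t)) ^ 2 =
        ∑ t ∈ range J, ∑ t' ∈ range J, ∑ a ∈ range E, A (a + E * t) * A (a + E * t') := by
      have : ∀ a, (∑ t ∈ range J, A (a + E * t)) ^ 2 =
          ∑ t ∈ range J, ∑ t' ∈ range J, A (a + E * t) * A (a + E * t') := by
        intro a
        rw [sq, sum_mul_sum]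
      simp only [this]
      rw [sum_comm]
      refine sum_congr rfl fun t _ => ?_
      rw [sum_comm]
    rw [e1, sum_square_symm (fun t t' => ∑ a ∈ range E, A (a + E * t) * A (a + E * t'))
      (fun a b => sum_congr rfl fun x _ => mul_comm _ _) J]
    congr 2
    refine sum_congr rfl fun i _ => ?_
    rw [sum_range_mul_split (fun x => A x * A (x + E * i)) E (J - i)]
    refine sum_congr rfl fun t _ => sum_congr rfl fun a _ => ?_
    rw [show a + E * (t + i) = a + E * t + E * i by ring]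
  have h4 : ∑ t ∈ range J, ∑ a ∈ range E, A (a + E * t) * A (a + E * t) ≤ E * J := by
    calc _ ≤ ∑ t ∈ range J, ∑ a ∈ range E, (1 : ℤ) :=
          sum_le_sum fun t _ => sum_le_sum fun a _ => hAsq _
      _ = E * J := by simp; ring
  have h5 : ∀ i ∈ Ico 1 J, ((∑ x ∈ range (E * (J - i)), A x * A (x + E * i) : ℤ) : ℝ) ≤
      (E : ℝ) * J / (r * s) * (kap r i * kap s i : ℕ) + r * s := by
    intro i _
    have hb := corr_bound r s m e hr2 hs2 hrs hrm hsm E i hrE hsE (E * (J - i))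
    have hb' := (le_abs_self _).trans hb
    have hb2 : ((∑ x ∈ range (E * (J - i)), A x * A (x + E * i) : ℤ) : ℝ) ≤
        (((E * (J - i) / (r * s) : ℕ) : ℤ) * (kap r i * kap s i) + (r * s : ℕ) : ℤ) := by
      exact_mod_cast hb'
    refine hb2.trans ?_
    have hrs0 : (0 : ℝ) < (r : ℝ) * s := by
      have := hr.pos; have := hs.pos; positivity
    have hfl : ((E * (J - i) / (r * s) : ℕ) : ℝ) ≤ (E : ℝ) * J / (r * s) := by
      rw [le_div_iff₀ hrs0]
      have : E * (J - i) / (r * s) * (r * s) ≤ E * J :=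
        (Nat.div_mul_le_self _ _).trans (Nat.mul_le_mul_left _ (Nat.sub_le _ _))
      exact_mod_cast this
    generalize E * (J - i) / (r * s) = q at hfl ⊢
    push_cast
    have hk : (0 : ℝ) ≤ (kap r i : ℝ) * kap s i := by positivity
    nlinarith [mul_le_mul_of_nonneg_right hfl hk]
  have h6 : ((∑ i ∈ Ico 1 J, ∑ x ∈ range (E * (J - i)), A x * A (x + E * i) : ℤ) : ℝ) ≤
      (E : ℝ) * J / (r * s) * (4 * J) + J * (r * s) := by
    push_cast
    have := sum_le_sum h5
    push_cast at this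
    refine this.trans ?_
    rw [sum_add_distrib, ← mul_sum, sum_const, nsmul_eq_mul]
    have hk : ((∑ i ∈ Ico 1 J, kap r i * kap s i : ℕ) : ℝ) ≤ 4 * J := by
      exact_mod_cast sum_kap r s hr hs hrs J
    push_cast at hk
    have hc : ((Ico 1 J).card : ℝ) ≤ J := by
      rw [Nat.card_Ico]; exact_mod_cast Nat.sub_le _ _
    have h7 : (0 : ℝ) ≤ (E : ℝ) * J / (r * s) := by positivity
    have h8 : (0 : ℝ) ≤ (r : ℝ) * s := by positivity
    nlinarith [mul_le_mul_of_nonneg_left hk h7, mul_le_mul_of_nonneg_right hc h8]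
  have h9 : (((∑ x ∈ range (E * J), g x * A x) ^ 2 : ℤ) : ℝ) ≤
      E * (E * J + 2 * ((E : ℝ) * J / (r * s) * (4 * J) + J * (r * s))) := by
    have h2' : (((∑ x ∈ range (E * J), g x * A x) ^ 2 : ℤ) : ℝ) ≤
        ((E * ∑ a ∈ range E, (∑ t ∈ range J, A (a + E * t)) ^ 2 : ℤ) : ℝ) := by
      exact_mod_cast h2
    refine h2'.trans ?_
    rw [h3]
    rw [Int.cast_mul, Int.cast_add, Int.cast_mul]
    have h4' : ((∑ t ∈ range J, ∑ a ∈ range E, A (a + E * t) * A (a + E * t) : ℤ) : ℝ) ≤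
        E * J := by exact_mod_cast h4
    have hE : (0 : ℝ) ≤ E := by positivity
    push_cast at h4' h6 ⊢
    have := add_le_add h4' (mul_le_mul_of_nonneg_left h6 (by norm_num : (0 : ℝ) ≤ 2))
    exact mul_le_mul_of_nonneg_left this hE
  rw [Int.cast_pow] at h9
  refine h9.trans (le_of_eq ?_)
  have hr0 : (r : ℝ) ≠ 0 := by exact_mod_cast hr.ne_zero
  have hs0 : (s : ℝ) ≠ 0 := by exact_mod_cast hs.ne_zero
  field_simp
  ring

/-- general length `N` -/
theorem T_bound' (hr2 : r ≠ 2) (hs2 : s ≠ 2) (hrs : r ≠ s) (hrm : ¬ r ∣ m) (hsm : ¬ s ∣ m)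
    (E : ℕ) (hE : 0 < E) (hrE : ¬ r ∣ E) (hsE : ¬ s ∣ E) (g : ℕ → ℤ)
    (hg : ∀ x, g (x + E) = g x) (hg1 : ∀ x, |g x| ≤ 1) (N : ℕ) :
    |((∑ x ∈ range N, g x * (ch r m e x * ch s m e x) : ℤ) : ℝ)| ≤
      Real.sqrt (E * N + 8 * (N : ℝ) ^ 2 / (r * s) + 2 * N * (r * s)) + E := by
  have hr : r.Prime := Fact.out
  have hs : s.Prime := Fact.out
  have h1 := T_bound r s m e hr2 hs2 hrs hrm hsm E hrE hsE g hg hg1 (N / E)
  have hNE : E * (N / E) ≤ N := Nat.mul_div_le N E
  have hNE' : (E : ℝ) * ((N / E : ℕ) : ℝ) ≤ N := by exact_mod_cast hNE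
  have h2 : |((∑ x ∈ range (E * (N / E)), g x * (ch r m e x * ch s m e x) : ℤ) : ℝ)| ≤
      Real.sqrt (E * N + 8 * (N : ℝ) ^ 2 / (r * s) + 2 * N * (r * s)) := by
    refine Real.le_sqrt_of_sq_le ?_
    rw [sq_abs]
    refine h1.trans ?_
    gcongr
  have h3 : ∑ x ∈ range N, g x * (ch r m e x * ch s m e x) =
      ∑ x ∈ range (E * (N / E)), g x * (ch r m e x * ch s m e x) +
      ∑ x ∈ range (N % E), g (E * (N / E) + x) * (ch r m e (E * (N / E) + x) *
        ch s m e (E * (N / E) + x)) := by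
    conv_lhs => rw [← Nat.div_add_mod N E]
    rw [sum_range_add]
  rw [h3, Int.cast_add]
  refine (abs_add_le _ _).trans (add_le_add h2 ?_)
  have h4 : |∑ x ∈ range (N % E), g (E * (N / E) + x) * (ch r m e (E * (N / E) + x) *
        ch s m e (E * (N / E) + x))| ≤ E := by
    refine (abs_sum_le_sum_abs _ _).trans ?_
    calc _ ≤ ∑ x ∈ range (N % E), (1 : ℤ) := by
          refine sum_le_sum fun x _ => ?_
          rw [abs_mul, abs_mul]
          exact mul_le_one₀ (hg1 _) (by positivity)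
            (mul_le_one₀ (ch_abs_le r m e _) (abs_nonneg _) (ch_abs_le s m e _))
      _ = (N % E : ℕ) := by simp
      _ ≤ E := by exact_mod_cast (Nat.mod_lt N hE).le
  rw [← Int.cast_abs]
  exact_mod_cast h4

end

end Pool.FS83
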